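import Mathlib

set_option autoImplicit false

/-! The real inequalities behind the theorem on cones over strongly regular graphs. -/

namespace GCN

/-- Everything that is known about the largest normalised Perron entry `a` (when there is no
dominating vertex) and the defect `D` of a graph with the spectrum of a cone. -/
structure RC (s τ a D : ℝ) : Prop where
  hs : 3 ≤ s
  hτ : 3 ≤ τ
  hst : s ≤ 2 * (τ - 1)
  F0 : τ + s - 1 ≤ τ * a ^ 2
  a0 : 0 < a
  as : a < s
  D0 : 0 ≤ D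
  D1 : D < τ * s * (s + 1)
  F3 : (τ * s * (s - 1) ^ 2 - (2 * τ + s - 1) * D) ^ 2 ≤ τ * ((s - 1) ^ 2 + 2 * D) *
    (τ * s ^ 2 * (s - 1) ^ 2 - D * (2 * τ * s * (s + 1) - 2 * (τ + s - 1) - D))
  F4 : τ * s ^ 2 * (s - 1) ^ 2 - D * (2 * τ * s * (s + 1) - 2 * (τ + s - 1) - D) ≤
    a * (τ * s * (s - 1) ^ 2 - (2 * τ + s - 1) * D)
  F5 : τ * (s - 2) * (a - 1) * (s - a) ≤ (a + 2) * D
  S0 : 0 < τ * (s + 1) * (s - a) - D
  F6 : 0 ≤ -(τ * (s - 2) + 1) * (τ * (s + 1) * (s - a) - D) ^ 2 +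
    (τ * (s - 2) * (s + 1) + 2 - D) * (τ * (s + 1) * (s - a) - D) * (τ * (s - a) * (s + a)) -
    (τ - 1) * s * (s - 2) * (τ * (s - a) * (s + a)) ^ 2
  F7 : (τ * (s + 1) * (s - a) - D - τ * (s - a) * (s + a)) ^ 2 ≤
    τ * (s - a) * (s + a) * ((a + 2) * D - τ * (s - 2) * (a - 1) * (s - a))

variable {s τ a D : ℝ}

lemma RC.one_lt (h : RC s τ a D) : 1 < a := by
  have h1 := h.F0
  have h2 := h.hτ
  have h3 := h.hs
  have h4 := h.a0
  by_contra hc
  push Not at hc
  have h5 : a ^ 2 ≤ 1 := by nlinarith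
  have h6 : τ * a ^ 2 ≤ τ * 1 := mul_le_mul_of_nonneg_left h5 (by linarith)
  linarith

lemma RC.Dpos (h : RC s τ a D) : 0 < D := by
  have h1 := h.one_lt
  have h5 := h.F5
  have h2 := h.hτ
  have h3 := h.hs
  have h4 := h.as
  have h6 : 0 < τ * (s - 2) * (a - 1) * (s - a) :=
    mul_pos (mul_pos (mul_pos (by linarith) (by linarith)) (by linarith)) (by linarith)
  have h7 : 0 < (a + 2) * D := lt_of_lt_of_le h6 h5
  exact pos_of_mul_pos_of_pos_left h7 (by linarith)
where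
  pos_of_mul_pos_of_pos_left {x y : ℝ} (hxy : 0 < x * y) (hx : 0 < x) : 0 < y := by
    by_contra hc
    push Not at hc
    have := mul_nonpos_of_nonneg_of_nonpos hx.le hc
    linarith

/-- (A) -/
lemma RC.A (h : RC s τ a D) (η d : ℝ) (hη : η * τ = s - 1) (hd : d * τ = D) :
    D * (4 * s * (s + 1) + η ^ 2 - 2 * d - η * (s - 1)) ≤
      2 * (s - 1) ^ 2 * (s + 1) * (1 + η) := by
  have hD := h.Dpos
  have hτ : 0 < τ := by linarith [h.hτ]
  have h3 := h.F3
  have h4 : D * (D * (4 * τ ^ 2 * s * (s + 1) + (s - 1) ^ 2 - 2 * τ * D - τ * (s - 1) ^ 2)) ≤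
      D * (2 * τ * (s - 1) ^ 2 * (s + 1) * (τ + s - 1)) := by
    nlinarith [h3]
  have h5 := le_of_mul_le_mul_left h4 hD
  have e1 : D * (4 * τ ^ 2 * s * (s + 1) + (s - 1) ^ 2 - 2 * τ * D - τ * (s - 1) ^ 2) =
      τ ^ 2 * (D * (4 * s * (s + 1) + η ^ 2 - 2 * d - η * (s - 1))) := by
    rw [← hη, ← hd]; ring
  have e2 : 2 * τ * (s - 1) ^ 2 * (s + 1) * (τ + s - 1) =
      τ ^ 2 * (2 * (s - 1) ^ 2 * (s + 1) * (1 + η)) := by
    have : τ + s - 1 = τ * (1 + η) := by linarith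
    rw [this]; ring
  rw [e1, e2] at h5
  exact le_of_mul_le_mul_left h5 (by positivity)

/-- (B) -/
lemma RC.B (h : RC s τ a D) (η d : ℝ) (hη : η * τ = s - 1) (hd : d * τ = D) :
    s * (s - 1) ^ 2 * (s - a) ≤
      D * (2 * s * (s + 1) - 2 * (1 + η) - d - a * (2 + η)) := by
  have hτ : 0 < τ := by linarith [h.hτ]
  have h4 := h.F4
  have h5 : τ * (s * (s - 1) ^ 2 * (s - a)) ≤
      τ * (D * (2 * s * (s + 1) - 2 * (1 + η) - d - a * (2 + η))) := by
    have e1 : τ * (D * (2 * s * (s + 1) - 2 * (1 + η) - d - a * (2 + η))) =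
        D * (2 * τ * s * (s + 1) - 2 * (τ + η * τ) - d * τ - a * (2 * τ + η * τ)) := by ring
    rw [e1, hη, hd]
    linarith
  exact le_of_mul_le_mul_left h5 hτ

/-- (C) -/
lemma RC.C (h : RC s τ a D) : (τ - 1) * (s - 2) * (a - 1) ≤ 3 * (s - 1) := by
  have hτ := h.hτ
  have hs := h.hs
  have h1 := h.one_lt
  have hE : 0 < s - a := by linarith [h.as]
  set S1 := τ * (s + 1) * (s - a) - D with hS1
  set w := τ * (s - a) * (s + a) with hw
  have hw0 : 0 < w := mul_pos (mul_pos (by linarith) hE) (by linarith)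
  have hS0 : 0 < S1 := h.S0
  have h6 := h.F6
  rw [← hS1, ← hw] at h6
  have hD := h.Dpos
  -- factorisation
  have h7 : D * S1 * w ≤ (s * w - S1) * ((τ * (s - 2) + 1) * S1 - (τ - 1) * (s - 2) * w) := by
    nlinarith [h6]
  have h8 : 0 < D * S1 * w := by positivity
  have h9 : S1 < s * w := by
    have e1 : s * w - S1 = τ * (s - a) * (s ^ 2 + s * a - s - 1) + D := by
      rw [hS1, hw]; ring
    have e2 : 0 < s ^ 2 + s * a - s - 1 := by nlinarith
    have e3 : 0 < τ * (s - a) * (s ^ 2 + s * a - s - 1) := by positivity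
    linarith
  have h10 : 0 < (τ * (s - 2) + 1) * S1 - (τ - 1) * (s - 2) * w := by
    by_contra hc
    push Not at hc
    have := mul_nonpos_of_nonneg_of_nonpos (show 0 ≤ s * w - S1 by linarith) hc
    linarith
  have h5 := h.F5
  have h11 : (a + 2) * S1 ≤ 3 * w := by
    have : (a + 2) * S1 = (a + 2) * (τ * (s + 1) * (s - a)) - (a + 2) * D := by rw [hS1]; ring
    rw [this, hw]
    nlinarith
  have hK : 0 < τ * (s - 2) + 1 := by nlinarith
  have h12 : (τ - 1) * (s - 2) * w * (a + 2) ≤ (τ * (s - 2) + 1) * (3 * w) := by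
    calc (τ - 1) * (s - 2) * w * (a + 2) ≤ ((τ * (s - 2) + 1) * S1) * (a + 2) :=
          mul_le_mul_of_nonneg_right (by linarith) (by linarith)
      _ = (τ * (s - 2) + 1) * ((a + 2) * S1) := by ring
      _ ≤ _ := mul_le_mul_of_nonneg_left h11 hK.le
  have h13 : w * ((τ - 1) * (s - 2) * (a + 2)) ≤ w * ((τ * (s - 2) + 1) * 3) := by
    calc _ = (τ - 1) * (s - 2) * w * (a + 2) := by ring
      _ ≤ _ := h12
      _ = _ := by ring
  have h14 := le_of_mul_le_mul_left h13 hw0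
  linarith

/-- crude bound for `D` -/
lemma RC.Dle (h : RC s τ a D) (η d : ℝ) (hη : η * τ = s - 1) (hd : d * τ = D) :
    0 < η ∧ η < 2 ∧ 0 < d ∧ D ≤ (s - 1) * (1 + η) / 2 := by
  have hτ := h.hτ
  have hs := h.hs
  have hst := h.hst
  have hτ0 : 0 < τ := by linarith
  have hD := h.Dpos
  have h1 : 0 < η := by
    by_contra hc
    push Not at hc
    have := mul_nonpos_of_nonpos_of_nonneg hc hτ0.le
    linarith
  have h2 : η < 2 := by
    by_contra hc
    push Not at hc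
    have : 2 * τ ≤ η * τ := mul_le_mul_of_nonneg_right hc hτ0.le
    linarith
  have h3 : 0 < d := by
    by_contra hc
    push Not at hc
    have := mul_nonpos_of_nonpos_of_nonneg hc hτ0.le
    linarith
  have hA := h.A η d hη hd
  have h4 : d < s * (s + 1) := by
    have h5 := h.D1
    rw [← hd] at h5
    have h6 : τ * d < τ * (s * (s + 1)) := by linarith
    exact lt_of_mul_lt_mul_left h6 hτ0.le
  have h5 : D ≤ (s - 1) * (1 + η) := by
    have e1 : D * (2 * s ^ 2 + 2) ≤ D * (4 * s * (s + 1) + η ^ 2 - 2 * d - η * (s - 1)) := by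
      apply mul_le_mul_of_nonneg_left _ hD.le
      nlinarith
    have e2 : D * (2 * s ^ 2 + 2) ≤ (s - 1) * (1 + η) * (2 * s ^ 2 + 2) := by
      refine (e1.trans hA).trans ?_
      have : 0 ≤ (s - 1) * (1 + η) := mul_nonneg (by linarith) (by linarith)
      nlinarith
    exact le_of_mul_le_mul_right e2 (by positivity)
  have h6 : d ≤ η * (1 + η) := by
    have e1 : τ * d ≤ τ * (η * (1 + η)) := by
      have : τ * (η * (1 + η)) = (s - 1) * (1 + η) := by rw [← hη]; ring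
      rw [this]; linarith
    exact le_of_mul_le_mul_left e1 hτ0
  refine ⟨h1, h2, h3, ?_⟩
  have e1 : D * (4 * (s ^ 2 - 1)) ≤ D * (4 * s * (s + 1) + η ^ 2 - 2 * d - η * (s - 1)) := by
    apply mul_le_mul_of_nonneg_left _ hD.le
    nlinarith
  have e2 : (4 * (s ^ 2 - 1)) * D ≤ (4 * (s ^ 2 - 1)) * ((s - 1) * (1 + η) / 2) := by
    calc _ = D * (4 * (s ^ 2 - 1)) := by ring
      _ ≤ _ := e1.trans hA
      _ = _ := by ring
  exact le_of_mul_le_mul_left e2 (by nlinarith)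

end GCN
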