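import Mathlib
import Pool.Agent.GCN.Core

set_option autoImplicit false

/-! The case analysis: `RC` is contradictory except for `(s, τ) = (3,3), (3,5), (4,4)`. -/

namespace GCN

variable {s τ a D : ℝ}

lemma RC.etas (h : RC s τ a D) : ∃ η d : ℝ, η * τ = s - 1 ∧ d * τ = D := by
  have hτ : τ ≠ 0 := by have := h.hτ; linarith
  exact ⟨(s - 1) / τ, D / τ, by field_simp, by field_simp⟩

lemma RC.big (h : RC s τ a D) (h7 : 7 ≤ s) : False := by
  obtain ⟨η, d, hη, hd⟩ := h.etas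
  obtain ⟨η0, η2, d0, hD⟩ := h.Dle η d hη hd
  have hB := h.B η d hη hd
  have hC := h.C
  have h1 := h.one_lt
  have hst := h.hst
  have hDp := h.Dpos
  -- `a ≤ 2.03`
  have ha : a - 1 ≤ 1.03 := by
    by_contra hc
    push Not at hc
    have e1 : s / 2 * (s - 2) * 1.03 ≤ (τ - 1) * (s - 2) * (a - 1) := by
      have : s / 2 * (s - 2) ≤ (τ - 1) * (s - 2) :=
        mul_le_mul_of_nonneg_right (by linarith) (by linarith)
      exact mul_le_mul this hc.le (by norm_num) (mul_nonneg (by linarith) (by linarith))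
    nlinarith
  have hD' : D ≤ (s - 1) * 3 / 2 := by
    have : (s - 1) * (1 + η) ≤ (s - 1) * 3 := mul_le_mul_of_nonneg_left (by linarith) (by linarith)
    linarith
  have e2 : 2 * s * (s + 1) - 2 * (1 + η) - d - a * (2 + η) ≤ 2 * s * (s + 1) - 4 := by
    nlinarith
  have e3 : s * (s - 1) ^ 2 * (s - a) ≤ (s - 1) * 3 / 2 * (2 * s * (s + 1) - 4) := by
    refine hB.trans ((mul_le_mul_of_nonneg_left e2 hDp.le).trans ?_)
    exact mul_le_mul_of_nonneg_right hD' (by nlinarith)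
  have e4 : (s - 1) ^ 2 * (s * (s - a)) ≤ (s - 1) ^ 2 * (3 * (s + 2)) := by
    calc _ = s * (s - 1) ^ 2 * (s - a) := by ring
      _ ≤ _ := e3
      _ = _ := by ring
  have e5 := le_of_mul_le_mul_left e4 (by nlinarith)
  nlinarith

lemma RC.six (h : RC 6 τ a D) (hτ : 4 ≤ τ) : False := by
  obtain ⟨η, d, hη, hd⟩ := h.etas
  obtain ⟨η0, η2, d0, hD⟩ := h.Dle η d hη hd
  have hB := h.B η d hη hd
  have hC := h.C
  have h1 := h.one_lt
  have hDp := h.Dpos
  have hη' : η ≤ 5 / 4 := by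
    by_contra hc
    push Not at hc
    have : 5 / 4 * 4 < η * τ := by nlinarith
    linarith
  have ha : a ≤ 9 / 4 := by nlinarith
  have hD' : D ≤ 45 / 8 := by linarith
  have e2 : 2 * 6 * ((6 : ℝ) + 1) - 2 * (1 + η) - d - a * (2 + η) ≤ 80 := by nlinarith
  have e3 : D * (2 * 6 * (6 + 1) - 2 * (1 + η) - d - a * (2 + η)) ≤ 45 / 8 * 80 :=
    (mul_le_mul_of_nonneg_left e2 hDp.le).trans (by linarith)
  linarith

lemma RC.five (h : RC 5 τ a D) (hτ : 4 ≤ τ) : False := by
  obtain ⟨η, d, hη, hd⟩ := h.etas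
  obtain ⟨η0, η2, d0, hD⟩ := h.Dle η d hη hd
  have hB := h.B η d hη hd
  have hC := h.C
  have h1 := h.one_lt
  have hDp := h.Dpos
  have hη' : η ≤ 1 := by
    by_contra hc
    push Not at hc
    have : 1 * 4 < η * τ := by nlinarith
    linarith
  have ha : a - 1 ≤ 4 / 3 := by nlinarith
  have e2 : 2 * 5 * ((5 : ℝ) + 1) - 2 * (1 + η) - d - a * (2 + η) ≤ 56 - 3 * η := by nlinarith
  have e3 : D * (2 * 5 * (5 + 1) - 2 * (1 + η) - d - a * (2 + η)) ≤
      (2 * (1 + η)) * (56 - 3 * η) :=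
    (mul_le_mul_of_nonneg_left e2 hDp.le).trans
      (mul_le_mul_of_nonneg_right (by linarith) (by linarith))
  have e4 : (2 * (1 + η)) * (56 - 3 * η) ≤ 212 := by nlinarith
  linarith

lemma RC.four (h : RC 4 τ a D) (hτ : 5 ≤ τ) : False := by
  obtain ⟨η, d, hη, hd⟩ := h.etas
  obtain ⟨η0, η2, d0, hD⟩ := h.Dle η d hη hd
  have hA := h.A η d hη hd
  have hB := h.B η d hη hd
  have hC := h.C
  have h1 := h.one_lt
  have hDp := h.Dpos
  have hη' : η ≤ 3 / 5 := by
    by_contra hc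
    push Not at hc
    have : 3 / 5 * 5 < η * τ := by nlinarith
    linarith
  have hd' : d ≤ 0.48 := by
    by_contra hc
    push Not at hc
    have : 0.48 * 5 < d * τ := by nlinarith
    linarith
  have ha : a - 1 ≤ 9 / 8 := by nlinarith
  have hD' : D * 77.24 ≤ 90 * (1 + η) := by
    have e1 : D * 77.24 ≤ D * (4 * 4 * (4 + 1) + η ^ 2 - 2 * d - η * (4 - 1)) := by
      apply mul_le_mul_of_nonneg_left _ hDp.le
      nlinarith
    linarith
  have e2 : 2 * 4 * ((4 : ℝ) + 1) - 2 * (1 + η) - d - a * (2 + η) ≤ 36 - 3 * η := by nlinarith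
  have e3 : 77.24 * (D * (2 * 4 * (4 + 1) - 2 * (1 + η) - d - a * (2 + η))) ≤
      (90 * (1 + η)) * (36 - 3 * η) := by
    calc _ = (D * 77.24) * (2 * 4 * (4 + 1) - 2 * (1 + η) - d - a * (2 + η)) := by ring
      _ ≤ (D * 77.24) * (36 - 3 * η) :=
        mul_le_mul_of_nonneg_left e2 (by positivity)
      _ ≤ _ := mul_le_mul_of_nonneg_right hD' (by linarith)
  have e4 : (90 * (1 + η)) * (36 - 3 * η) ≤ 90 * 54.72 := by nlinarith
  linarith

lemma RC.three (h : RC 3 τ a D) (hτ : 6 ≤ τ) : False := by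
  obtain ⟨η, d, hη, hd⟩ := h.etas
  obtain ⟨η0, η2, d0, hD⟩ := h.Dle η d hη hd
  have hA := h.A η d hη hd
  have hB := h.B η d hη hd
  have hC := h.C
  have h1 := h.one_lt
  have h3 := h.as
  have hDp := h.Dpos
  have h5 := h.F5
  have hη' : η ≤ 1 / 3 := by
    by_contra hc
    push Not at hc
    have : 1 / 3 * 6 < η * τ := by nlinarith
    linarith
  have hd' : d ≤ 2 / 9 := by
    by_contra hc
    push Not at hc
    have : 2 / 9 * 6 < d * τ := by nlinarith
    linarith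
  have ha : a ≤ 2.2 := by nlinarith
  have hD' : D ≤ 0.911 := by
    have e1 : D * 46.88 ≤ D * (4 * 3 * (3 + 1) + η ^ 2 - 2 * d - η * (3 - 1)) := by
      apply mul_le_mul_of_nonneg_left _ hDp.le
      nlinarith
    linarith
  have e2 : 2 * 3 * ((3 : ℝ) + 1) - 2 * (1 + η) - d - a * (2 + η) ≤ 22 - 2 * a := by nlinarith
  have e3 : D * (2 * 3 * (3 + 1) - 2 * (1 + η) - d - a * (2 + η)) ≤ 0.911 * (22 - 2 * a) :=
    (mul_le_mul_of_nonneg_left e2 hDp.le).trans
      (mul_le_mul_of_nonneg_right hD' (by linarith))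
  have ha' : 1.565 ≤ a := by linarith
  have e4 : 6 * ((a - 1) * (3 - a)) ≤ (a + 2) * 0.911 := by
    have e5 : 6 * ((a - 1) * (3 - a)) ≤ τ * ((a - 1) * (3 - a)) :=
      mul_le_mul_of_nonneg_right hτ (mul_nonneg (by linarith) (by linarith))
    have e6 : (a + 2) * D ≤ (a + 2) * 0.911 := mul_le_mul_of_nonneg_left hD' (by linarith)
    have e7 : τ * (3 - 2) * (a - 1) * (3 - a) = τ * ((a - 1) * (3 - a)) := by ring
    linarith
  nlinarith

lemma RC.four_three (h : RC 4 3 a D) : False := by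
  have hA := h.A 1 (D / 3) (by norm_num) (by ring)
  obtain ⟨-, -, -, hD⟩ := h.Dle 1 (D / 3) (by norm_num) (by ring)
  have hB := h.B 1 (D / 3) (by norm_num) (by ring)
  have hC := h.C
  have h1 := h.one_lt
  have h3 := h.as
  have hDp := h.Dpos
  have h5 := h.F5
  have hD3 : D ≤ 3 := by linarith
  have hD' : D ≤ 2.369 := by
    have e1 : D * 76 ≤ D * (4 * 4 * (4 + 1) + 1 ^ 2 - 2 * (D / 3) - 1 * (4 - 1)) := by
      apply mul_le_mul_of_nonneg_left _ hDp.le
      linarith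
    linarith
  have ha : a ≤ 3.25 := by linarith
  have ha1 : 2.03 ≤ a := by
    have e3 : D * (2 * 4 * (4 + 1) - 2 * (1 + 1) - D / 3 - a * (2 + 1)) ≤
        2.369 * (36 - 3 * a) := by
      have e2 : 2 * 4 * ((4 : ℝ) + 1) - 2 * (1 + 1) - D / 3 - a * (2 + 1) ≤ 36 - 3 * a := by
        linarith
      exact (mul_le_mul_of_nonneg_left e2 hDp.le).trans
        (mul_le_mul_of_nonneg_right hD' (by linarith))
    linarith
  have ha2 : 3.01 ≤ a := by
    by_contra hc
    push Not at hc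
    have e6 : (a + 2) * D ≤ (a + 2) * 2.369 := mul_le_mul_of_nonneg_left hD' (by linarith)
    nlinarith
  have hE : 0 < 4 - a := by linarith
  -- `D ≥ 1.9`
  have hDl : 1.9 ≤ D := by
    have e1 : (a + 2) * 1.9 ≤ 3 * (4 - 2) * (a - 1) * (4 - a) := by nlinarith
    exact le_of_mul_le_mul_left (e1.trans h5) (by linarith)
  obtain ⟨b, hb⟩ : ∃ b : ℝ, b * (3 * (4 - a) * (4 + a)) = 3 * (4 + 1) * (4 - a) - D :=
    ⟨(3 * (4 + 1) * (4 - a) - D) / (3 * (4 - a) * (4 + a)), by
      have : 3 * (4 - a) * (4 + a) ≠ 0 := by positivity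
      field_simp⟩
  have hw : 0 < 3 * (4 - a) * (4 + a) := by positivity
  have hb0 : 0 < b := by
    by_contra hc
    push Not at hc
    have := mul_nonpos_of_nonpos_of_nonneg hc hw.le
    have := h.S0
    linarith
  have h6 := h.F6
  rw [← hb] at h6
  have h7 : 0 ≤ (3 * (4 - a) * (4 + a)) ^ 2 * ((4 - b) * (7 * b - 4) - D * b) := by
    linarith
  have h8 : 0 ≤ (4 - b) * (7 * b - 4) - D * b := by
    by_contra hc
    push Not at hc
    have := mul_neg_of_pos_of_neg (show 0 < (3 * (4 - a) * (4 + a)) ^ 2 by positivity) hc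
    linarith
  have h9 : (a + 2) * b ≤ 3 := by
    have e1 : (3 * (4 - a) * (4 + a)) * ((a + 2) * b) ≤ (3 * (4 - a) * (4 + a)) * 3 := by
      have : (3 * (4 - a) * (4 + a)) * ((a + 2) * b) =
        (a + 2) * (b * (3 * (4 - a) * (4 + a))) := by ring
      rw [this, hb]
      linarith
    exact le_of_mul_le_mul_left e1 hw
  have h10 : b ≤ 0.6 := by nlinarith
  have h11 : 0 < 7 * b - 4 := by
    by_contra hc
    push Not at hc
    have e1 := mul_nonpos_of_nonneg_of_nonpos (show 0 ≤ 4 - b by linarith) hc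
    have e2 : 0 < D * b := by positivity
    linarith
  nlinarith

lemma RC.three_four (h : RC 3 4 a D) : False := by
  have hA := h.A (1 / 2) (D / 4) (by norm_num) (by ring)
  obtain ⟨-, -, -, hD⟩ := h.Dle (1 / 2) (D / 4) (by norm_num) (by ring)
  have hB := h.B (1 / 2) (D / 4) (by norm_num) (by ring)
  have h1 := h.one_lt
  have h3 := h.as
  have hDp := h.Dpos
  have hD3 : D ≤ 1.5 := by linarith
  have hD4 : D ≤ 1.0323 := by
    have e1 : D * 46.5 ≤ D * (4 * 3 * (3 + 1) + (1 / 2) ^ 2 - 2 * (D / 4) - 1 / 2 * (3 - 1)) := by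
      apply mul_le_mul_of_nonneg_left _ hDp.le
      linarith
    linarith
  have hD' : D ≤ 1.0272 := by
    have e1 : D * 46.7338 ≤
        D * (4 * 3 * (3 + 1) + (1 / 2) ^ 2 - 2 * (D / 4) - 1 / 2 * (3 - 1)) := by
      apply mul_le_mul_of_nonneg_left _ hDp.le
      linarith
    linarith
  have hE : 0 < 3 - a := by linarith
  have ha1 : 1.529 ≤ a := by
    have e3 : D * (2 * 3 * (3 + 1) - 2 * (1 + 1 / 2) - D / 4 - a * (2 + 1 / 2)) ≤
        1.0272 * (21 - 2.5 * a) := by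
      have e2 : 2 * 3 * ((3 : ℝ) + 1) - 2 * (1 + 1 / 2) - D / 4 - a * (2 + 1 / 2) ≤
          21 - 2.5 * a := by
        linarith
      exact (mul_le_mul_of_nonneg_left e2 hDp.le).trans
        (mul_le_mul_of_nonneg_right hD' (by linarith))
    linarith
  obtain ⟨u, hu⟩ : ∃ u : ℝ, D = 4 * (3 - a) * u := ⟨D / (4 * (3 - a)), by field_simp⟩
  have hu0 : 0 < u := by
    by_contra hc
    push Not at hc
    have := mul_nonpos_of_nonneg_of_nonpos (show 0 ≤ 4 * (3 - a) by linarith) hc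
    linarith
  have hE2 : 0 < 16 * (3 - a) ^ 2 := by positivity
  -- (d)
  have h7 : 2 * (a ^ 2 - 1) + u ^ 2 ≤ u * (a ^ 2 + 3 * a + 8) := by
    have e0 := h.F7
    rw [hu] at e0
    have e1 : 16 * (3 - a) ^ 2 * (2 * (a ^ 2 - 1) + u ^ 2) ≤
        16 * (3 - a) ^ 2 * (u * (a ^ 2 + 3 * a + 8)) := by
      linarith
    exact le_of_mul_le_mul_left e1 hE2
  have h7' : 2 * (a ^ 2 - 1) ≤ u * (a ^ 2 + 3 * a + 8) := by nlinarith [sq_nonneg u]
  have ha2 : 2.44 ≤ a := by
    by_contra hc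
    push Not at hc
    have e1 : 8 * (3 - a) * (a ^ 2 - 1) ≤ 1.0272 * (a ^ 2 + 3 * a + 8) := by
      have e2 : 4 * (3 - a) * (2 * (a ^ 2 - 1)) ≤ 4 * (3 - a) * (u * (a ^ 2 + 3 * a + 8)) :=
        mul_le_mul_of_nonneg_left h7' (by linarith)
      have e3 : 4 * (3 - a) * (u * (a ^ 2 + 3 * a + 8)) = D * (a ^ 2 + 3 * a + 8) := by
        rw [hu]; ring
      have e4 : D * (a ^ 2 + 3 * a + 8) ≤ 1.0272 * (a ^ 2 + 3 * a + 8) :=
        mul_le_mul_of_nonneg_right hD' (by nlinarith)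
      linarith
    nlinarith [mul_nonneg (show 0 ≤ a - 1.529 by linarith) (show 0 ≤ 2.44 - a by linarith),
      mul_nonneg (mul_nonneg (show 0 ≤ a - 1.529 by linarith) (show 0 ≤ 2.44 - a by linarith))
        (show 0 ≤ a by linarith)]
  obtain ⟨b, hb⟩ : ∃ b : ℝ, b * (3 + a) = 4 - u := ⟨(4 - u) / (3 + a), by
    have : 3 + a ≠ 0 := by linarith
    field_simp⟩
  have hb0 : 0 < b := by
    have h8 := h.S0
    rw [hu] at h8
    have h9 : 0 < 4 * (3 - a) * (4 - u) := by linarith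
    have h10 : 0 < 4 - u := by
      by_contra hc
      push Not at hc
      have := mul_nonpos_of_nonneg_of_nonpos (show 0 ≤ 4 * (3 - a) by linarith) hc
      linarith
    by_contra hc
    push Not at hc
    have := mul_nonpos_of_nonpos_of_nonneg hc (show 0 ≤ 3 + a by linarith)
    linarith
  have h6 := h.F6
  have e1 : 4 * (3 + 1) * (3 - a) - D = 4 * (3 - a) * (3 + a) * b := by
    rw [hu]
    linear_combination (-4 * (3 - a)) * hb
  rw [e1] at h6
  have h8 : 0 ≤ (4 * (3 - a) * (3 + a)) ^ 2 * ((3 - b) * (5 * b - 3) - D * b) := by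
    linarith
  have hw : 0 < 4 * (3 - a) * (3 + a) := by
    have : 0 < 3 + a := by linarith
    positivity
  have h9 : 0 ≤ (3 - b) * (5 * b - 3) - D * b := by
    by_contra hc
    push Not at hc
    have := mul_neg_of_pos_of_neg (show 0 < (4 * (3 - a) * (3 + a)) ^ 2 by positivity) hc
    linarith
  have hb3 : b < 1 := by nlinarith
  have h10 : 0.6 < b := by
    by_contra hc
    push Not at hc
    have e1 := mul_nonpos_of_nonneg_of_nonpos (show 0 ≤ 3 - b by linarith)
      (show 5 * b - 3 ≤ 0 by linarith)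
    have e2 : 0 < D * b := by positivity
    linarith
  have h11 : D ≤ 4 * (5 * b - 3) := by
    have e2 : D * 0.6 ≤ D * b := mul_le_mul_of_nonneg_left h10.le hDp.le
    have e3 : (3 - b) * (5 * b - 3) ≤ 2.4 * (5 * b - 3) :=
      mul_le_mul_of_nonneg_right (by linarith) (by linarith)
    linarith
  have h12 : u * (14 - a ^ 2) ≤ 11 - 3 * a := by
    have e2 : D * (3 + a) ≤ 4 * (5 * b - 3) * (3 + a) :=
      mul_le_mul_of_nonneg_right h11 (by linarith)
    have e3 : 4 * (5 * b - 3) * (3 + a) = 20 * (4 - u) - 12 * (3 + a) := by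
      rw [← hb]; ring
    rw [e3, hu] at e2
    nlinarith
  have h13 : 2 * (a ^ 2 - 1) * (14 - a ^ 2) ≤ (11 - 3 * a) * (a ^ 2 + 3 * a + 8) := by
    calc 2 * (a ^ 2 - 1) * (14 - a ^ 2) ≤ u * (a ^ 2 + 3 * a + 8) * (14 - a ^ 2) :=
          mul_le_mul_of_nonneg_right h7' (by nlinarith)
      _ = (u * (14 - a ^ 2)) * (a ^ 2 + 3 * a + 8) := by ring
      _ ≤ _ := mul_le_mul_of_nonneg_right h12 (by nlinarith)
  have h14 : 0 < -2 * a ^ 4 + 3 * a ^ 3 + 28 * a ^ 2 - 9 * a - 116 := by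
    obtain ⟨x, hx⟩ : ∃ x, a = 2.44 + x := ⟨a - 2.44, by ring⟩
    have hx0 : 0 ≤ x := by linarith
    have hx1 : x ≤ 0.56 := by linarith
    rw [hx]
    nlinarith [mul_nonneg hx0 (show 0 ≤ 0.56 - x by linarith), pow_nonneg hx0 2,
      pow_nonneg hx0 3, mul_nonneg (pow_nonneg hx0 2) (show 0 ≤ 0.56 - x by linarith),
      mul_nonneg (pow_nonneg hx0 3) (show 0 ≤ 0.56 - x by linarith)]
  nlinarith

/-- all cases -/
theorem RC.false (S K : ℕ) (h : RC (S : ℝ) (K : ℝ) a D)
    (h33 : ¬ (S = 3 ∧ K = 3)) (h35 : ¬ (S = 3 ∧ K = 5)) (h44 : ¬ (S = 4 ∧ K = 4)) : False := by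
  have hs : 3 ≤ S := by exact_mod_cast h.hs
  have hτ : 3 ≤ K := by exact_mod_cast h.hτ
  have hst : (S : ℝ) ≤ 2 * ((K : ℝ) - 1) := h.hst
  have hst' : S + 2 ≤ 2 * K := by
    have : (S : ℝ) + 2 ≤ 2 * K := by linarith
    exact_mod_cast this
  by_cases h7 : 7 ≤ S
  · exact h.big (by exact_mod_cast h7)
  · push Not at h7
    interval_cases S
    · -- S = 3
      by_cases h6 : 6 ≤ K
      · exact RC.three (by exact_mod_cast h) (by exact_mod_cast h6)
      · push Not at h6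
        interval_cases K
        · exact h33 ⟨rfl, rfl⟩
        · exact RC.three_four (by exact_mod_cast h)
        · exact h35 ⟨rfl, rfl⟩
    · by_cases h6 : 5 ≤ K
      · exact RC.four (by exact_mod_cast h) (by exact_mod_cast h6)
      · push Not at h6
        interval_cases K
        · exact RC.four_three (by exact_mod_cast h)
        · exact h44 ⟨rfl, rfl⟩
    · exact RC.five (by exact_mod_cast h) (by exact_mod_cast (show 4 ≤ K by omega))
    · exact RC.six (by exact_mod_cast h) (by exact_mod_cast (show 4 ≤ K by omega))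

end GCN
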