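import Mathlib
import Pool.Agent.TS.Alg
import Pool.Agent.GCN.Cases

set_option autoImplicit false
set_option linter.unusedSectionVars false

/-! Moments of the normalised Perron vector of a graph whose eigenvalues are those of a cone. -/

namespace GCN

open Finset TE TS

variable {V : Type*} [Fintype V] [DecidableEq V]
variable {G : SimpleGraph V} [DecidableRel G.Adj] {s τ : ℝ} {β : V → ℝ}

/-- Normalised data: eigenvalues `τ (s + 1) - 1`, `τ - 1`, `-s`, Perron vector `√τ β`. -/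
structure ND (G : SimpleGraph V) [DecidableRel G.Adj] (s τ : ℝ) (β : V → ℝ) : Prop where
  τ0 : 0 < τ
  ne : Nonempty V
  pos : ∀ x, 0 < β x
  deg : ∀ x, (G.degree x : ℝ) = τ * β x ^ 2 + (τ - 1) * s
  eig : ∀ x, ∑ y, ad G x y * β y = (τ * (s + 1) - 1) * β x
  op : ∀ (u : V → ℝ) (x : V), ∑ y, ad G x y * (∑ z, ad G y z * u z) =
    (τ - 1 - s) * ∑ z, ad G x z * u z + (τ - 1) * s * u x + τ * β x * ∑ z, β z * u z
  M2 : ∑ x, β x ^ 2 = s * (τ * (s + 1) + s - 1)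
  card : (Fintype.card V : ℝ) = s * (τ * (s + 1) - 1) + 1

/-- the defect -/
def dft (s τ : ℝ) (β : V → ℝ) : ℝ := τ * s * (s + 1) - ∑ x, β x

lemma ND.S (_h : ND G s τ β) : ∑ x, β x = τ * s * (s + 1) - dft s τ β := by
  unfold dft; ring

lemma ND.A2 (h : ND G s τ β) (x : V) : ∑ y, ad G x y * β y ^ 2 =
    (τ * s * (s + 1) - dft s τ β) * β x - (τ * (s - 1) + 1) * β x ^ 2 -
      (τ - 1) * s * (s - 1) := by
  have h1 := h.op (fun _ => 1) x
  simp only [mul_one] at h1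
  have h2 : ∑ y, ad G x y * (∑ z, ad G y z) =
      τ * (∑ y, ad G x y * β y ^ 2) + (τ - 1) * s * ∑ y, ad G x y := by
    rw [Finset.mul_sum, Finset.mul_sum, ← Finset.sum_add_distrib]
    refine Finset.sum_congr rfl fun y _ => ?_
    rw [sum_ad, h.deg y]; ring
  rw [h2, sum_ad, h.deg x, h.S] at h1
  have h3 : τ * (∑ y, ad G x y * β y ^ 2) = τ * ((τ * s * (s + 1) - dft s τ β) * β x -
      (τ * (s - 1) + 1) * β x ^ 2 - (τ - 1) * s * (s - 1)) := by
    linear_combination h1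
  exact mul_left_cancel₀ h.τ0.ne' h3

lemma ND.M3 (h : ND G s τ β) : τ * ∑ x, β x ^ 3 =
    (τ + s - 1) * (τ * s * (s + 1) - dft s τ β) := by
  have h1 := ad_adjoint (G := G) (fun _ => 1) β
  simp only [one_mul, mul_one] at h1
  have h2 : ∑ x, ∑ y, ad G x y * β y = (τ * (s + 1) - 1) * ∑ x, β x := by
    rw [Finset.mul_sum]
    exact Finset.sum_congr rfl fun x _ => h.eig x
  have h3 : ∑ x, (∑ y, ad G x y) * β x = τ * ∑ x, β x ^ 3 + (τ - 1) * s * ∑ x, β x := by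
    rw [Finset.mul_sum, Finset.mul_sum, ← Finset.sum_add_distrib]
    refine Finset.sum_congr rfl fun y _ => ?_
    rw [sum_ad, h.deg y]; ring
  rw [h2, h3, h.S] at h1
  linear_combination -h1

lemma ND.M4 (h : ND G s τ β) : τ * ∑ x, β x ^ 4 =
    (τ * s * (s + 1) - dft s τ β) ^ 2 - (τ * (s - 1) + 1 + (τ - 1) * s) *
      (s * (τ * (s + 1) + s - 1)) -
      (s * (τ * (s + 1) - 1) + 1) * ((τ - 1) * s * (s - 1)) := by
  have h1 := ad_adjoint (G := G) (fun _ => 1) (fun x => β x ^ 2)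
  simp only [one_mul, mul_one] at h1
  have h2 : ∑ x, ∑ y, ad G x y * β y ^ 2 = (τ * s * (s + 1) - dft s τ β) * ∑ x, β x -
      (τ * (s - 1) + 1) * ∑ x, β x ^ 2 - (Fintype.card V : ℝ) * ((τ - 1) * s * (s - 1)) := by
    rw [Finset.mul_sum, Finset.mul_sum]
    have : (Fintype.card V : ℝ) * ((τ - 1) * s * (s - 1)) =
        ∑ _x : V, ((τ - 1) * s * (s - 1)) := by
      rw [Finset.sum_const, Finset.card_univ, nsmul_eq_mul]
    rw [this, ← Finset.sum_sub_distrib, ← Finset.sum_sub_distrib]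
    exact Finset.sum_congr rfl fun x _ => h.A2 x
  have h3 : ∑ x, (∑ y, ad G x y) * β x ^ 2 =
      τ * ∑ x, β x ^ 4 + (τ - 1) * s * ∑ x, β x ^ 2 := by
    rw [Finset.mul_sum, Finset.mul_sum, ← Finset.sum_add_distrib]
    refine Finset.sum_congr rfl fun y _ => ?_
    rw [sum_ad, h.deg y]; ring
  rw [h2, h3, h.S, h.M2, h.card] at h1
  linear_combination -h1

lemma ND.m0 (h : ND G s τ β) : ∑ x, (β x - 1) ^ 2 = (s - 1) ^ 2 + 2 * dft s τ β := by
  have e : ∀ x, (β x - 1) ^ 2 = β x ^ 2 - 2 * β x + 1 := fun x => by ring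
  rw [Finset.sum_congr rfl fun x _ => e x, Finset.sum_add_distrib, Finset.sum_sub_distrib,
    ← Finset.mul_sum, h.S, h.M2, Finset.sum_const, Finset.card_univ, nsmul_eq_mul, h.card]
  ring

lemma ND.m1 (h : ND G s τ β) : τ * ∑ x, (β x - 1) ^ 2 * β x =
    τ * s * (s - 1) ^ 2 - (2 * τ + s - 1) * dft s τ β := by
  have e : ∀ x, (β x - 1) ^ 2 * β x = β x ^ 3 - 2 * β x ^ 2 + β x := fun x => by ring
  rw [Finset.sum_congr rfl fun x _ => e x, Finset.sum_add_distrib, Finset.sum_sub_distrib,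
    ← Finset.mul_sum, h.S, h.M2]
  linear_combination h.M3

lemma ND.m2 (h : ND G s τ β) : τ * ∑ x, (β x - 1) ^ 2 * β x ^ 2 =
    τ * s ^ 2 * (s - 1) ^ 2 -
      dft s τ β * (2 * τ * s * (s + 1) - 2 * (τ + s - 1) - dft s τ β) := by
  have e : ∀ x, (β x - 1) ^ 2 * β x ^ 2 = β x ^ 4 - 2 * β x ^ 3 + β x ^ 2 := fun x => by ring
  rw [Finset.sum_congr rfl fun x _ => e x, Finset.sum_add_distrib, Finset.sum_sub_distrib,
    ← Finset.mul_sum, h.M2]
  linear_combination h.M4 - 2 * h.M3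

/-- all vertices: `β ≤ s` -/
lemma ND.le (h : ND G s τ β) (hs : 0 < s) (x : V) : β x ≤ s := by
  have h1 : (G.degree x : ℝ) + 1 ≤ Fintype.card V := by exact_mod_cast G.degree_lt_card_verts x
  rw [h.deg x, h.card] at h1
  have h2 : τ * β x ^ 2 ≤ τ * s ^ 2 := by linarith
  have h3 := le_of_mul_le_mul_left h2 h.τ0
  exact (pow_le_pow_iff_left₀ (h.pos x).le hs.le two_ne_zero).mp h3

lemma ND.D0 (h : ND G s τ β) (hs : 3 ≤ s) : 0 ≤ dft s τ β := by
  have h0 := h.m0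
  have h1 := h.m1
  have h2 := h.m2
  have hτ := h.τ0
  have e : ∀ x, (β x - 1) ^ 2 * (s - β x) ^ 2 = s ^ 2 * (β x - 1) ^ 2 -
      2 * s * ((β x - 1) ^ 2 * β x) + (β x - 1) ^ 2 * β x ^ 2 := fun x => by ring
  have h3 : 0 ≤ ∑ x, (β x - 1) ^ 2 * (s - β x) ^ 2 :=
    Finset.sum_nonneg fun x _ => by positivity
  rw [Finset.sum_congr rfl fun x _ => e x, Finset.sum_add_distrib, Finset.sum_sub_distrib,
    ← Finset.mul_sum, ← Finset.mul_sum] at h3
  have h4 : 0 ≤ τ * (s ^ 2 * ∑ x, (β x - 1) ^ 2 - 2 * s * ∑ x, (β x - 1) ^ 2 * β x +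
      ∑ x, (β x - 1) ^ 2 * β x ^ 2) := mul_nonneg hτ.le h3
  have h5 : τ * (s ^ 2 * ∑ x, (β x - 1) ^ 2 - 2 * s * ∑ x, (β x - 1) ^ 2 * β x +
      ∑ x, (β x - 1) ^ 2 * β x ^ 2) =
      dft s τ β * (2 * (s + 1) * (τ + s - 1) + dft s τ β) := by
    rw [h0]
    linear_combination (-2 * s) * h1 + h2
  rw [h5] at h4
  have h6 : 0 ≤ ∑ x, (β x - 1) ^ 2 := Finset.sum_nonneg fun x _ => by positivity
  rw [h0] at h6
  by_contra hc
  push Not at hc
  have h7 : 0 < 2 * (s + 1) * (τ + s - 1) + dft s τ β := by nlinarith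
  have := mul_neg_of_neg_of_pos hc h7
  linarith

lemma ND.D1 (h : ND G s τ β) : dft s τ β < τ * s * (s + 1) := by
  obtain ⟨x⟩ := h.ne
  have : 0 < ∑ x, β x := Finset.sum_pos (fun y _ => h.pos y) ⟨x, Finset.mem_univ _⟩
  unfold dft
  linarith

/-- the non-neighbours of a vertex -/
def WW (G : SimpleGraph V) [DecidableRel G.Adj] (x : V) : Finset V :=
  Finset.univ.filter (fun z => z ≠ x ∧ ¬ G.Adj x z)

lemma sum_WW (G : SimpleGraph V) [DecidableRel G.Adj] (x : V) (f : V → ℝ) :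
    ∑ z ∈ WW G x, f z = ∑ z, f z - f x - ∑ z, ad G x z * f z := by
  have h1 : ∑ z ∈ WW G x, f z = ∑ z, if (z ≠ x ∧ ¬ G.Adj x z) then f z else 0 := by
    unfold WW
    rw [Finset.sum_filter]
  have h2 : f x = ∑ z, if z = x then f z else 0 := by simp
  rw [h1, h2, ← Finset.sum_sub_distrib, ← Finset.sum_sub_distrib]
  refine Finset.sum_congr rfl fun z _ => ?_
  unfold ad
  by_cases hz : z = x
  · subst hz
    simp
  · by_cases ha : G.Adj x z
    · simp [hz, ha]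
    · simp [hz, ha]

lemma ND.w (h : ND G s τ β) (x : V) : ((WW G x).card : ℝ) = τ * (s - β x) * (s + β x) := by
  have h1 := sum_WW G x (fun _ => 1)
  simp only [mul_one, Finset.sum_const, nsmul_eq_mul, Finset.card_univ] at h1
  rw [h1, sum_ad, h.deg x, h.card]
  ring

lemma ND.S1 (h : ND G s τ β) (x : V) : ∑ z ∈ WW G x, β z =
    τ * (s + 1) * (s - β x) - dft s τ β := by
  rw [sum_WW, h.eig x, h.S]
  ring

lemma ND.RW (h : ND G s τ β) (x : V) : ∑ z ∈ WW G x, (β z - 1) ^ 2 =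
    (β x + 2) * dft s τ β - τ * (s - 2) * (β x - 1) * (s - β x) := by
  rw [sum_WW, h.m0]
  have e : ∀ z, ad G x z * (β z - 1) ^ 2 = ad G x z * β z ^ 2 - 2 * (ad G x z * β z) + ad G x z :=
    fun z => by ring
  rw [Finset.sum_congr rfl fun z _ => e z, Finset.sum_add_distrib, Finset.sum_sub_distrib,
    ← Finset.mul_sum, h.A2 x, h.eig x, sum_ad, h.deg x]
  ring

lemma ND.L (h : ND G s τ β) (z : V) : 0 ≤ (τ * (s - 2) * (s + 1) + 2 - dft s τ β) * β z -
    (τ * (s - 2) + 1) * β z ^ 2 - (τ - 1) * s * (s - 2) := by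
  have h1 : 0 ≤ ∑ y, ad G z y * (β y - 1) ^ 2 :=
    Finset.sum_nonneg fun y _ => mul_nonneg (ad_nonneg G z y) (sq_nonneg _)
  have e : ∀ y, ad G z y * (β y - 1) ^ 2 = ad G z y * β y ^ 2 - 2 * (ad G z y * β y) + ad G z y :=
    fun y => by ring
  rw [Finset.sum_congr rfl fun y _ => e y, Finset.sum_add_distrib, Finset.sum_sub_distrib,
    ← Finset.mul_sum, h.A2 z, h.eig z, sum_ad, h.deg z] at h1
  linarith

lemma ND.sqW (_h : ND G s τ β) (x : V) :
    ∑ z ∈ WW G x, β z ^ 2 = ∑ z ∈ WW G x, (β z - 1) ^ 2 + 2 * ∑ z ∈ WW G x, β z -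
      ((WW G x).card : ℝ) := by
  have : ((WW G x).card : ℝ) = ∑ _z ∈ WW G x, (1 : ℝ) := by simp
  rw [this, Finset.mul_sum, ← Finset.sum_add_distrib, ← Finset.sum_sub_distrib]
  exact Finset.sum_congr rfl fun z _ => by ring

/-- if the maximum of `β` is smaller than `s` then `RC` holds -/
theorem ND.rc (h : ND G s τ β) (hs : 3 ≤ s) (hτ : 3 ≤ τ) (hst : s ≤ 2 * (τ - 1)) (x : V)
    (hx : ∀ y, β y ≤ β x) (hxs : β x < s) : RC s τ (β x) (dft s τ β) := by
  have hD0 := h.D0 hs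
  have hD1 := h.D1
  have hτ0 := h.τ0
  have hW := h.w x
  have hS1 := h.S1 x
  have hRW := h.RW x
  have hw0 : 0 < ((WW G x).card : ℝ) := by
    rw [hW]
    exact mul_pos (mul_pos hτ0 (by linarith)) (by linarith [h.pos x])
  have hne : (WW G x).Nonempty := by
    rw [← Finset.card_pos]
    exact_mod_cast hw0
  have hK : 0 < τ * (s - 2) + 1 := by
    have : 0 < τ * (s - 2) := mul_pos hτ0 (by linarith)
    linarith
  refine ⟨hs, hτ, hst, ?_, h.pos x, hxs, hD0, hD1, ?_, ?_, ?_, ?_, ?_, ?_⟩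
  · -- F0
    have h1 : ∑ y, ad G x y * β y ≤ ∑ y, ad G x y * β x :=
      Finset.sum_le_sum fun y _ => mul_le_mul_of_nonneg_left (hx y) (ad_nonneg G x y)
    rw [h.eig x, ← Finset.sum_mul, sum_ad, h.deg x] at h1
    have h2 := le_of_mul_le_mul_right h1 (h.pos x)
    linarith
  · -- F3
    have h1 := Finset.sum_mul_sq_le_sq_mul_sq Finset.univ (fun y => β y - 1)
      (fun y => (β y - 1) * β y)
    have e1 : ∑ y, (β y - 1) * ((β y - 1) * β y) = ∑ y, (β y - 1) ^ 2 * β y :=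
      Finset.sum_congr rfl fun y _ => by ring
    have e2 : ∑ y, ((β y - 1) * β y) ^ 2 = ∑ y, (β y - 1) ^ 2 * β y ^ 2 :=
      Finset.sum_congr rfl fun y _ => by ring
    rw [e1, e2] at h1
    rw [← h.m1, ← h.m2, ← h.m0]
    have h2 : τ ^ 2 * (∑ y, (β y - 1) ^ 2 * β y) ^ 2 ≤
        τ ^ 2 * ((∑ y, (β y - 1) ^ 2) * ∑ y, (β y - 1) ^ 2 * β y ^ 2) :=
      mul_le_mul_of_nonneg_left h1 (by positivity)
    calc _ = τ ^ 2 * (∑ y, (β y - 1) ^ 2 * β y) ^ 2 := by ring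
      _ ≤ _ := h2
      _ = _ := by ring
  · -- F4
    rw [← h.m1, ← h.m2]
    have h1 : ∑ y, (β y - 1) ^ 2 * β y ^ 2 ≤ β x * ∑ y, (β y - 1) ^ 2 * β y := by
      rw [Finset.mul_sum]
      refine Finset.sum_le_sum fun y _ => ?_
      have e1 : β x * ((β y - 1) ^ 2 * β y) = (β y - 1) ^ 2 * (β y * β x) := by ring
      rw [e1]
      apply mul_le_mul_of_nonneg_left _ (sq_nonneg _)
      rw [sq]
      exact mul_le_mul_of_nonneg_left (hx y) (h.pos y).le
    calc _ ≤ τ * (β x * ∑ y, (β y - 1) ^ 2 * β y) := mul_le_mul_of_nonneg_left h1 hτ0.le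
      _ = _ := by ring
  · -- F5
    have h1 : 0 ≤ ∑ z ∈ WW G x, (β z - 1) ^ 2 := Finset.sum_nonneg fun z _ => sq_nonneg _
    rw [hRW] at h1
    linarith
  · -- S0
    rw [← hS1]
    exact Finset.sum_pos (fun z _ => h.pos z) hne
  · -- F6
    have h1 : 0 ≤ ∑ z ∈ WW G x, ((τ * (s - 2) * (s + 1) + 2 - dft s τ β) * β z -
        (τ * (s - 2) + 1) * β z ^ 2 - (τ - 1) * s * (s - 2)) :=
      Finset.sum_nonneg fun z _ => h.L z
    rw [Finset.sum_sub_distrib, Finset.sum_sub_distrib, ← Finset.mul_sum, ← Finset.mul_sum,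
      Finset.sum_const, nsmul_eq_mul] at h1
    have h2 : (∑ z ∈ WW G x, β z) ^ 2 ≤ ((WW G x).card : ℝ) * ∑ z ∈ WW G x, β z ^ 2 :=
      sq_sum_le_card_mul_sum_sq
    have h3 := mul_nonneg hw0.le h1
    have h4 := mul_le_mul_of_nonneg_left h2 hK.le
    rw [← hW, ← hS1]
    linarith
  · -- F7
    have h2 : (∑ z ∈ WW G x, (β z - 1)) ^ 2 ≤
        ((WW G x).card : ℝ) * ∑ z ∈ WW G x, (β z - 1) ^ 2 :=
      sq_sum_le_card_mul_sum_sq
    rw [Finset.sum_sub_distrib, Finset.sum_const, nsmul_eq_mul, mul_one, hRW, hS1, hW] at h2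
    exact h2

/-- the structure theorem for a graph whose eigenvalues are those of a cone -/
theorem ND.main (S K : ℕ) (h : ND G (S : ℝ) (K : ℝ) β) (hs : 3 ≤ S) (hst : S + 2 ≤ 2 * K)
    (h33 : ¬ (S = 3 ∧ K = 3)) (h35 : ¬ (S = 3 ∧ K = 5)) (h44 : ¬ (S = 4 ∧ K = 4)) :
    ∃ x, β x = S ∧ ∀ y, y ≠ x → β y = 1 := by
  have hsR : (3 : ℝ) ≤ S := by exact_mod_cast hs
  have hK : 3 ≤ K := by omega
  have hKR : (3 : ℝ) ≤ K := by exact_mod_cast hK
  have hstR : (S : ℝ) ≤ 2 * ((K : ℝ) - 1) := by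
    have : (S : ℝ) + 2 ≤ 2 * K := by exact_mod_cast hst
    linarith
  have hne := h.ne
  obtain ⟨x, -, hx⟩ := Finset.exists_max_image (Finset.univ : Finset V) β
    ⟨hne.some, Finset.mem_univ _⟩
  have hxs : β x = S := by
    rcases (h.le (by linarith) x).lt_or_eq with h1 | h1
    · exact ((h.rc hsR hKR hstR x (fun y => hx y (Finset.mem_univ _)) h1).false S K h33 h35
        h44).elim
    · exact h1
  refine ⟨x, hxs, ?_⟩
  set D := dft (S : ℝ) (K : ℝ) β with hD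
  have hD0 : 0 ≤ D := h.D0 hsR
  have hD1 : D < K * S * (S + 1) := h.D1
  have h0 := h.m0
  have h2 := h.m2
  rw [← hD] at h0 h2
  have h3 : (β x - 1) ^ 2 * β x ^ 2 ≤ ∑ y, (β y - 1) ^ 2 * β y ^ 2 :=
    Finset.single_le_sum (f := fun y => (β y - 1) ^ 2 * β y ^ 2)
      (fun y _ => by positivity) (Finset.mem_univ x)
  have h4 : (K : ℝ) * ((β x - 1) ^ 2 * β x ^ 2) ≤ K * ∑ y, (β y - 1) ^ 2 * β y ^ 2 :=
    mul_le_mul_of_nonneg_left h3 (by linarith)
  rw [h2, hxs] at h4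
  have h5 : 0 < 2 * (K : ℝ) * S * (S + 1) - 2 * (K + S - 1) - D := by
    have e1 : 2 * ((K : ℝ) + S - 1) ≤ 6 * K := by linarith
    have e2 : (K : ℝ) * 12 ≤ K * (S * (S + 1)) := by
      apply mul_le_mul_of_nonneg_left _ (by linarith)
      nlinarith
    linarith
  have hDz : D = 0 := by
    apply le_antisymm _ hD0
    by_contra hc
    push Not at hc
    have := mul_pos hc h5
    linarith
  rw [hDz] at h0
  intro y hy
  have h6 : (β x - 1) ^ 2 + (β y - 1) ^ 2 ≤ ∑ z, (β z - 1) ^ 2 := by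
    have e1 : ∑ z ∈ ({x, y} : Finset V), (β z - 1) ^ 2 ≤ ∑ z, (β z - 1) ^ 2 :=
      Finset.sum_le_sum_of_subset_of_nonneg (Finset.subset_univ _) (fun z _ _ => sq_nonneg _)
    rwa [Finset.sum_pair (Ne.symm hy)] at e1
  rw [h0, hxs] at h6
  have h7 : (β y - 1) ^ 2 ≤ 0 := by linarith
  have h8 := pow_eq_zero_iff (two_ne_zero) |>.mp (le_antisymm h7 (sq_nonneg _))
  linarith

end GCN
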