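import Mathlib
import Pool.Agent.TS.Alg
import Pool.Agent.GCN.Mom

set_option autoImplicit false
set_option linter.unusedSectionVars false

/-! The parameters of a cone over a regular graph with three eigenvalues, and the comparison. -/

namespace GCN

open Finset TE TS

variable {V : Type*} [Fintype V] [DecidableEq V]
variable {G : SimpleGraph V} [DecidableRel G.Adj] {T θ0 θ1 θ2 : ℝ} {α : V → ℝ}

/-- the eigenvalues of a cone -/
theorem cone_params (h : Dat G T θ0 θ1 θ2 α) (x0 : V) (k : ℕ)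
    (hx0 : G.degree x0 = Fintype.card V - 1) (hk : ∀ y, y ≠ x0 → G.degree y = k)
    (hk2 : 2 ≤ k) (hkn : k < Fintype.card V - 1) :
    ∃ S K : ℕ, θ2 = -(S : ℝ) ∧ θ1 = (K : ℝ) - 1 ∧ θ0 = (K : ℝ) * (S + 1) - 1 ∧
      (Fintype.card V : ℝ) = S * θ0 + 1 ∧ S + 2 ≤ 2 * K ∧ (k : ℝ) = K + (K - 1) * S := by
  classical
  have hcard : 3 < Fintype.card V := by omega
  -- `x0` is adjacent to everything
  have hN0 : G.neighborFinset x0 = Finset.univ.erase x0 := by
    apply Finset.eq_of_subset_of_card_le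
    · intro y hy
      rw [SimpleGraph.mem_neighborFinset] at hy
      rw [Finset.mem_erase]
      exact ⟨hy.ne', Finset.mem_univ _⟩
    · rw [Finset.card_erase_of_mem (Finset.mem_univ _), Finset.card_univ,
        SimpleGraph.card_neighborFinset_eq_degree, hx0]
  have hadj0 : ∀ y, y ≠ x0 → G.Adj x0 y := by
    intro y hy
    rw [← SimpleGraph.mem_neighborFinset, hN0, Finset.mem_erase]
    exact ⟨hy, Finset.mem_univ _⟩
  -- nonregular
  have hreg : ¬ ∃ d, G.IsRegularOfDegree d := by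
    rintro ⟨d, hd⟩
    obtain ⟨y, hy⟩ : ∃ y, y ≠ x0 := by
      have : 1 < Fintype.card V := by omega
      exact Fintype.exists_ne_of_one_lt_card this x0
    have e1 := hd x0
    have e2 := hd y
    rw [hx0] at e1
    rw [hk y hy] at e2
    omega
  have hθ1 := theta1_nonneg h hreg
  -- a vertex `y1 ≠ x0`
  obtain ⟨y1, hy1⟩ : ∃ y, y ≠ x0 := Fintype.exists_ne_of_one_lt_card (by omega) x0
  set c := α y1 with hc
  have hc0 : 0 < c := h.pos y1
  have hαc : ∀ y, y ≠ x0 → α y = c := by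
    intro y hy
    have e1 := h.diag y
    have e2 := h.diag y1
    rw [hk y hy] at e1
    rw [hk y1 hy1] at e2
    have e3 : α y ^ 2 = c ^ 2 := by rw [hc]; linarith
    exact (pow_left_inj₀ (h.pos y).le hc0.le two_ne_zero).mp e3
  -- a non-neighbour `y2` of `y1`
  obtain ⟨y2, hy21, hy2n⟩ : ∃ y, y ≠ y1 ∧ ¬ G.Adj y1 y := by
    by_contra hcon
    push Not at hcon
    have : G.degree y1 = Fintype.card V - 1 := by
      rw [← SimpleGraph.card_neighborFinset_eq_degree]
      have : G.neighborFinset y1 = Finset.univ.erase y1 := by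
        ext z
        rw [SimpleGraph.mem_neighborFinset, Finset.mem_erase]
        constructor
        · intro hz; exact ⟨hz.ne', Finset.mem_univ _⟩
        · rintro ⟨hz, -⟩; exact hcon z hz
      rw [this, Finset.card_erase_of_mem (Finset.mem_univ _), Finset.card_univ]
    rw [hk y1 hy1] at this
    omega
  have hy2 : y2 ≠ x0 := by
    rintro rfl
    exact hy2n (hadj0 y1 hy1).symm
  -- a neighbour `y3 ≠ x0` of `y1`
  obtain ⟨y3, hy3m, hy3⟩ : ∃ y ∈ G.neighborFinset y1, y ≠ x0 := by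
    apply Finset.exists_mem_ne
    rw [SimpleGraph.card_neighborFinset_eq_degree, hk y1 hy1]
    omega
  have hy13 : G.Adj y1 y3 := by rwa [SimpleGraph.mem_neighborFinset] at hy3m
  set a0 := α x0 with ha0
  have ha00 : 0 < a0 := h.pos x0
  -- equations
  have e1 : (k : ℝ) * c + (a0 - c) = θ0 * c := by
    have e := h.eig y1
    have e' : ∑ y, ad G y1 y * α y = ∑ y, ad G y1 y * c + (a0 - c) := by
      have : ∀ y, ad G y1 y * α y = ad G y1 y * c + (if y = x0 then (a0 - c) else 0) := by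
        intro y
        by_cases hy : y = x0
        · subst hy
          have : ad G y1 y = 1 := by unfold ad; rw [if_pos (hadj0 y1 hy1).symm]
          rw [this, if_pos rfl]; ring
        · rw [hαc y hy, if_neg hy]; ring
      rw [Finset.sum_congr rfl fun y _ => this y, Finset.sum_add_distrib]
      simp
    rw [e', ← Finset.sum_mul, sum_ad, hk y1 hy1] at e
    exact e
  have hn1 : ((Fintype.card V - 1 : ℕ) : ℝ) = (Fintype.card V : ℝ) - 1 := by
    rw [Nat.cast_sub (by omega)]; simp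
  have e2 : ((Fintype.card V : ℝ) - 1) * c = θ0 * a0 := by
    have e := h.eig x0
    have e' : ∑ y, ad G x0 y * α y = ∑ y, ad G x0 y * c := by
      refine Finset.sum_congr rfl fun y _ => ?_
      by_cases hy : y = x0
      · subst hy
        have : ad G y y = 0 := by unfold ad; simp
        rw [this]; ring
      · rw [hαc y hy]
    rw [e', ← Finset.sum_mul, sum_ad, hx0, hn1] at e
    exact e
  have e3 : (Fintype.card V : ℝ) - 1 = a0 ^ 2 - θ1 * θ2 := by
    have e := h.diag x0
    rw [hx0, hn1] at e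
    exact e
  have e4 : (k : ℝ) = c ^ 2 - θ1 * θ2 := by
    have e := h.diag y1
    rw [hk y1 hy1] at e
    exact e
  have e5 : (k : ℝ) - 1 = a0 * c + θ1 + θ2 := by
    have e := h.adj x0 y1 (hadj0 y1 hy1)
    have e' : cd G x0 y1 = k - 1 := by
      unfold cd
      have : G.neighborFinset x0 ∩ G.neighborFinset y1 = (G.neighborFinset y1).erase x0 := by
        rw [hN0]
        ext z
        simp only [Finset.mem_inter, Finset.mem_erase, Finset.mem_univ, and_true]
      rw [this, Finset.card_erase_of_mem, SimpleGraph.card_neighborFinset_eq_degree, hk y1 hy1]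
      rw [SimpleGraph.mem_neighborFinset]
      exact (hadj0 y1 hy1).symm
    rw [e', Nat.cast_sub (by omega)] at e
    simpa using e
  have e6 : (cd G y1 y2 : ℝ) = c ^ 2 := by
    rw [h.nadj y1 y2 hy21.symm hy2n, hαc y2 hy2, ← hc]; ring
  have e7 : (cd G y1 y3 : ℝ) = c ^ 2 + θ1 + θ2 := by
    rw [h.adj y1 y3 hy13, hαc y3 hy3, ← hc]; ring
  have e7' : 1 ≤ cd G y1 y3 := by
    unfold cd
    apply Finset.card_pos.mpr
    refine ⟨x0, ?_⟩
    rw [Finset.mem_inter, SimpleGraph.mem_neighborFinset, SimpleGraph.mem_neighborFinset]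
    exact ⟨(hadj0 y1 hy1).symm, (hadj0 y3 hy3).symm⟩
  -- algebra
  obtain ⟨κ, hκ⟩ : ∃ κ : ℝ, κ = θ0 - k + 1 := ⟨_, rfl⟩
  have f1 : a0 = κ * c := by rw [hκ]; linarith
  have hκ0 : 0 < κ := by
    by_contra hcon
    push Not at hcon
    have := mul_nonpos_of_nonpos_of_nonneg hcon hc0.le
    linarith
  have f2 : (Fintype.card V : ℝ) - 1 = θ0 * κ := by
    have : ((Fintype.card V : ℝ) - 1) * c = (θ0 * κ) * c := by rw [e2, f1]; ring
    exact mul_right_cancel₀ hc0.ne' this
  have hκ1 : κ ≠ 1 := by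
    intro hcon
    have g1 : (Fintype.card V : ℝ) - 1 = k := by
      rw [e3, e4, f1, hcon]; ring
    rw [← hn1] at g1
    have : Fintype.card V - 1 = k := by exact_mod_cast g1
    omega
  have f3 : c ^ 2 * (κ + 1) = θ0 + 1 := by
    have g1 : (κ - 1) * (c ^ 2 * (κ + 1)) = (κ - 1) * (θ0 + 1) := by
      rw [f1] at e3
      linear_combination (f2 - e3) + (e4 - hκ)
    exact mul_left_cancel₀ (sub_ne_zero.mpr hκ1) g1
  have f4 : c ^ 2 - 1 - κ = θ1 + θ2 := by
    rw [f1] at e5
    linear_combination f3 + e5 - hκ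
  have f5 : -(θ1 * θ2) = κ * (c ^ 2 - 1) := by
    linear_combination -f3 - e4 + hκ
  have f6 : (θ2 + κ) * (θ2 - (c ^ 2 - 1)) = 0 := by
    linear_combination (-θ2) * f4 + f5
  have f7 : θ2 = -κ := by
    rcases mul_eq_zero.mp f6 with g | g
    · linarith
    · exfalso
      have : θ1 = -κ := by linarith
      linarith
  have f8 : θ1 = c ^ 2 - 1 := by linarith
  obtain ⟨K, hK⟩ : ∃ K : ℕ, K = cd G y1 y2 := ⟨_, rfl⟩
  obtain ⟨L, hL⟩ : ∃ L : ℕ, L = cd G y1 y3 := ⟨_, rfl⟩
  have hKR : (K : ℝ) = c ^ 2 := by rw [hK, e6]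
  have hLR : (L : ℝ) = c ^ 2 + θ1 + θ2 := by rw [hL, e7]
  have hL1 : 1 ≤ L := by rw [hL]; exact e7'
  have hSR : κ = 2 * (K : ℝ) - 1 - L := by rw [hKR, hLR, f7, f8]; ring
  have hLK : L < 2 * K - 1 := by
    have : (L : ℝ) + 1 < 2 * K := by linarith
    have : L + 1 < 2 * K := by exact_mod_cast this
    omega
  have hS : ((2 * K - 1 - L : ℕ) : ℝ) = κ := by
    rw [Nat.cast_sub (by omega), Nat.cast_sub (by omega), hSR]
    push_cast
    ring
  refine ⟨2 * K - 1 - L, K, ?_, ?_, ?_, ?_, by omega, ?_⟩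
  · rw [hS, f7]
  · rw [hKR, f8]
  · rw [hS, hKR]; linarith
  · rw [hS]; linarith
  · rw [hS, hKR, e4, f7, f8]; ring

/-- normalised data from `Dat` -/
theorem nd_of_dat (s τ : ℝ) (h : Dat G T (τ * (s + 1) - 1) (τ - 1) (-s) α) (hτ : 0 < τ)
    (hn : (Fintype.card V : ℝ) = s * (τ * (s + 1) - 1) + 1) :
    ND G s τ (fun x => α x / Real.sqrt τ) := by
  have hq : 0 < Real.sqrt τ := Real.sqrt_pos.mpr hτ
  have hqq : Real.sqrt τ ^ 2 = τ := Real.sq_sqrt hτ.le
  have hα : ∀ x, α x = Real.sqrt τ * (α x / Real.sqrt τ) := fun x => by field_simp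
  refine ⟨hτ, h.conn.nonempty, fun x => div_pos (h.pos x) hq, ?_, ?_, ?_, ?_, hn⟩
  · intro x
    rw [h.diag x, div_pow, hqq]
    field_simp
    ring
  · intro x
    have h1 := h.eig x
    have : ∑ y, ad G x y * (α y / Real.sqrt τ) = (∑ y, ad G x y * α y) / Real.sqrt τ := by
      rw [Finset.sum_div]
      exact Finset.sum_congr rfl fun y _ => by ring
    rw [this, h1]; ring
  · intro u x
    have h1 := h.op u x
    have h2 : ∑ z, α z / Real.sqrt τ * u z = (∑ z, α z * u z) / Real.sqrt τ := by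
      rw [Finset.sum_div]
      exact Finset.sum_congr rfl fun y _ => by ring
    rw [h2]
    have h3 : τ * (α x / Real.sqrt τ) * ((∑ z, α z * u z) / Real.sqrt τ) =
        α x * ∑ z, α z * u z := by
      have e : τ * (α x / Real.sqrt τ) * ((∑ z, α z * u z) / Real.sqrt τ) =
          τ * (α x * ∑ z, α z * u z) / Real.sqrt τ ^ 2 := by ring
      rw [e, hqq]
      field_simp
    rw [h3, ← h1]; ring
  · have h1 := norm_sq h
    have h2 : ∑ x, (α x / Real.sqrt τ) ^ 2 = (∑ x, α x ^ 2) / τ := by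
      rw [Finset.sum_div]
      exact Finset.sum_congr rfl fun y _ => by rw [div_pow, hqq]
    rw [h2, h1]
    field_simp
    ring

/-- the comparison theorem -/
theorem compare (S K : ℕ) (hS : 3 ≤ S) (hSK : S + 2 ≤ 2 * K)
    (h : Dat G T ((K : ℝ) * (S + 1) - 1) ((K : ℝ) - 1) (-(S : ℝ)) α)
    (hn : (Fintype.card V : ℝ) = S * ((K : ℝ) * (S + 1) - 1) + 1) (k : ℕ)
    (hk : (k : ℝ) = K + (K - 1) * S) :
    ∃ x, G.degree x = Fintype.card V - 1 ∧ ∀ y, y ≠ x → G.degree y = k := by
  have hK : 3 ≤ K := by omega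
  have hKR : (3 : ℝ) ≤ K := by exact_mod_cast hK
  have hnd := nd_of_dat (S : ℝ) (K : ℝ) h (by linarith) hn
  obtain ⟨m, hm⟩ := trace_nat h
  rw [hn] at hm
  have hm' : ((K * (S + 1) - 1) * (S * (K - 1) + 1) : ℤ) = (K - 1 + S) * m := by
    have : (((K : ℝ) * (S + 1) - 1) * (S * (K - 1) + 1)) = (K - 1 + S) * m := by
      linear_combination hm
    exact_mod_cast this
  obtain ⟨x, hx, hy⟩ := hnd.main S K hS hSK
    (by
      rintro ⟨rfl, rfl⟩
      norm_num at hm'
      omega)
    (by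
      rintro ⟨rfl, rfl⟩
      norm_num at hm'
      omega)
    (by
      rintro ⟨rfl, rfl⟩
      norm_num at hm'
      omega)
  refine ⟨x, ?_, ?_⟩
  · have h1 := hnd.deg x
    rw [hx] at h1
    have h2 : (G.degree x : ℝ) + 1 = Fintype.card V := by rw [h1, hn]; ring
    have h3 : G.degree x + 1 = Fintype.card V := by exact_mod_cast h2
    omega
  · intro y hyx
    have h1 := hnd.deg y
    rw [hy y hyx] at h1
    have h2 : (G.degree y : ℝ) = k := by rw [h1, hk]; ring
    exact_mod_cast h2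

end GCN
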