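import Mathlib
import Pool.Agent.TS.Zero

set_option autoImplicit false
set_option linter.unusedSectionVars false

/-! Moments of the Perron vector of a graph with three eigenvalues and the valency array. -/

namespace GCN

open Finset TE TS

section mom

variable {V : Type*} [Fintype V] [DecidableEq V]
variable {G : SimpleGraph V} [DecidableRel G.Adj] {T θ0 θ1 θ2 : ℝ} {α : V → ℝ}

lemma mts3 (h : Dat G T θ0 θ1 θ2 α) : ∑ x, α x ^ 3 = (θ0 + θ1 * θ2) * ∑ x, α x := by
  have h1 := ad_adjoint (G := G) (fun _ => 1) α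
  simp only [one_mul, mul_one] at h1
  have h2 : ∑ x, ∑ y, ad G x y * α y = θ0 * ∑ x, α x := by
    rw [Finset.mul_sum]
    exact Finset.sum_congr rfl fun x _ => h.eig x
  have h3 : ∑ x, (∑ y, ad G x y) * α x = ∑ x, α x ^ 3 - θ1 * θ2 * ∑ x, α x := by
    rw [Finset.mul_sum, ← Finset.sum_sub_distrib]
    refine Finset.sum_congr rfl fun y _ => ?_
    rw [sum_ad, h.diag y]; ring
  rw [h2, h3] at h1
  linear_combination -h1

lemma mtsd (h : Dat G T θ0 θ1 θ2 α) : ∑ x, (G.degree x : ℝ) =
    (θ0 - θ1) * (θ0 - θ2) - θ1 * θ2 * Fintype.card V := by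
  rw [← norm_sq h]
  have : θ1 * θ2 * (Fintype.card V : ℝ) = ∑ _x : V, θ1 * θ2 := by
    rw [Finset.sum_const, Finset.card_univ, nsmul_eq_mul]; ring
  rw [this, ← Finset.sum_sub_distrib]
  exact Finset.sum_congr rfl fun x _ => h.diag x

lemma mtsdd (h : Dat G T θ0 θ1 θ2 α) : ∑ x, (G.degree x : ℝ) ^ 2 =
    (∑ x, α x) ^ 2 + (θ1 + θ2) * ∑ x, (G.degree x : ℝ) - θ1 * θ2 * Fintype.card V := by
  have h1 : ∀ x, ∑ y, ad G x y * (∑ z, ad G y z) - (θ1 + θ2) * ∑ z, ad G x z + θ1 * θ2
      = α x * ∑ z, α z := by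
    intro x
    have := h.op (fun _ => 1) x
    simpa only [mul_one] using this
  have h2 : ∑ x, (∑ y, ad G x y * (∑ z, ad G y z)) = ∑ x, (G.degree x : ℝ) ^ 2 := by
    have e := ad_adjoint (G := G) (fun _ => 1) (fun y => ∑ z, ad G y z)
    simp only [one_mul, mul_one] at e
    rw [e]
    refine Finset.sum_congr rfl fun y _ => ?_
    rw [sum_ad]; ring
  have h3 : ∑ x, (∑ y, ad G x y * (∑ z, ad G y z) - (θ1 + θ2) * ∑ z, ad G x z + θ1 * θ2) =
      ∑ x, α x * ∑ z, α z := Finset.sum_congr rfl fun x _ => h1 x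
  rw [Finset.sum_add_distrib, Finset.sum_sub_distrib, h2, ← Finset.mul_sum,
    Finset.sum_const, Finset.card_univ, nsmul_eq_mul] at h3
  have h4 : ∑ x, ∑ z, ad G x z = ∑ x, (G.degree x : ℝ) :=
    Finset.sum_congr rfl fun x _ => sum_ad x
  have h5 : ∑ x, α x * ∑ z, α z = (∑ z, α z) ^ 2 := by
    rw [← Finset.sum_mul]; ring
  rw [h4, h5] at h3
  linear_combination h3

lemma mts4 (h : Dat G T θ0 θ1 θ2 α) : ∑ x, α x ^ 4 =
    ∑ x, (G.degree x : ℝ) ^ 2 + 2 * (θ1 * θ2) * ∑ x, (G.degree x : ℝ) +
      (θ1 * θ2) ^ 2 * Fintype.card V := by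
  have : (θ1 * θ2) ^ 2 * (Fintype.card V : ℝ) = ∑ _x : V, (θ1 * θ2) ^ 2 := by
    rw [Finset.sum_const, Finset.card_univ, nsmul_eq_mul]; ring
  rw [this, Finset.mul_sum, ← Finset.sum_add_distrib, ← Finset.sum_add_distrib]
  refine Finset.sum_congr rfl fun x _ => ?_
  rw [h.diag x]; ring

end mom

section count

variable {V W : Type*} [Fintype V] [Fintype W]

/-- two families of real numbers with at most five values in total and the same moments of
orders `0, ..., 4` have the same multiplicities -/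
theorem counts (f : V → ℝ) (g : W → ℝ) (Z : Finset ℝ) (hZ : Z.card ≤ 5)
    (hf : ∀ x, f x ∈ Z) (hg : ∀ x, g x ∈ Z)
    (hm : ∀ i < 5, ∑ x, f x ^ i = ∑ x, g x ^ i) (z : ℝ) :
    (Finset.univ.filter (fun x => f x = z)).card =
      (Finset.univ.filter (fun x => g x = z)).card := by
  classical
  by_cases hz : z ∈ Z
  · set P : Polynomial ℝ := ∏ w ∈ Z.erase z, (Polynomial.X - Polynomial.C w) with hP
    have hdeg : P.natDegree < 5 := by
      rw [hP, Polynomial.natDegree_prod_of_monic _ _ (fun w _ => Polynomial.monic_X_sub_C w)]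
      simp only [Polynomial.natDegree_X_sub_C, Finset.sum_const, smul_eq_mul, mul_one]
      rw [Finset.card_erase_of_mem hz]
      have : 0 < Z.card := Finset.card_pos.mpr ⟨z, hz⟩
      omega
    have hev : ∀ w ∈ Z, w ≠ z → P.eval w = 0 := by
      intro w hw hwz
      rw [hP, Polynomial.eval_prod]
      apply Finset.prod_eq_zero (Finset.mem_erase.mpr ⟨hwz, hw⟩)
      simp
    have hev0 : P.eval z ≠ 0 := by
      rw [hP, Polynomial.eval_prod, Finset.prod_ne_zero_iff]
      intro w hw
      simp only [Polynomial.eval_sub, Polynomial.eval_X, Polynomial.eval_C]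
      exact sub_ne_zero.mpr (Ne.symm (Finset.mem_erase.mp hw).1)
    have hs : ∑ x, P.eval (f x) = ∑ x, P.eval (g x) := by
      simp only [Polynomial.eval_eq_sum_range' hdeg]
      rw [Finset.sum_comm, Finset.sum_comm (s := (Finset.univ : Finset W))]
      refine Finset.sum_congr rfl fun i hi => ?_
      rw [← Finset.mul_sum, ← Finset.mul_sum, hm i (Finset.mem_range.mp hi)]
    have e1 : ∑ x, P.eval (f x) = (Finset.univ.filter (fun x => f x = z)).card * P.eval z := by
      rw [← Finset.sum_filter_add_sum_filter_not Finset.univ (fun x => f x = z)]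
      rw [Finset.sum_congr rfl (g := fun _ => P.eval z)
        (fun x hx => by rw [(Finset.mem_filter.mp hx).2])]
      rw [Finset.sum_eq_zero (s := Finset.univ.filter (fun x => ¬ f x = z))
        (fun x hx => hev _ (hf x) (Finset.mem_filter.mp hx).2)]
      rw [Finset.sum_const, nsmul_eq_mul, add_zero]
    have e2 : ∑ x, P.eval (g x) = (Finset.univ.filter (fun x => g x = z)).card * P.eval z := by
      rw [← Finset.sum_filter_add_sum_filter_not Finset.univ (fun x => g x = z)]
      rw [Finset.sum_congr rfl (g := fun _ => P.eval z)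
        (fun x hx => by rw [(Finset.mem_filter.mp hx).2])]
      rw [Finset.sum_eq_zero (s := Finset.univ.filter (fun x => ¬ g x = z))
        (fun x hx => hev _ (hg x) (Finset.mem_filter.mp hx).2)]
      rw [Finset.sum_const, nsmul_eq_mul, add_zero]
    rw [e1, e2] at hs
    exact_mod_cast mul_right_cancel₀ hev0 hs
  · have e1 : Finset.univ.filter (fun x => f x = z) = ∅ := by
      rw [Finset.filter_eq_empty_iff]
      intro x _ hx
      exact hz (hx ▸ hf x)
    have e2 : Finset.univ.filter (fun x => g x = z) = ∅ := by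
      rw [Finset.filter_eq_empty_iff]
      intro x _ hx
      exact hz (hx ▸ hg x)
    rw [e1, e2, Finset.card_empty, Finset.card_empty]

end count

section cmp

variable {V W : Type} [Fintype V] [DecidableEq V] [Fintype W] [DecidableEq W]
variable {G : SimpleGraph V} [DecidableRel G.Adj] {H : SimpleGraph W} [DecidableRel H.Adj]
variable {T T' θ0 θ1 θ2 : ℝ} {α : V → ℝ} {α' : W → ℝ}

lemma mts_all (h : Dat G T θ0 θ1 θ2 α) (h' : Dat H T' θ0 θ1 θ2 α')
    (hn : Fintype.card V = Fintype.card W) (hs : ∑ x, α x = ∑ x, α' x) :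
    ∀ i < 5, ∑ x, α x ^ i = ∑ x, α' x ^ i := by
  have hnR : (Fintype.card V : ℝ) = Fintype.card W := by rw [hn]
  intro i hi
  interval_cases i
  · simp [hnR]
  · simpa using hs
  · rw [norm_sq h, norm_sq h']
  · rw [mts3 h, mts3 h', hs]
  · rw [mts4 h, mts4 h', mtsdd h, mtsdd h', mtsd h, mtsd h', hs, hnR]

lemma sum_eq_of_sq (h : Dat G T θ0 θ1 θ2 α) (h' : Dat H T' θ0 θ1 θ2 α')
    (hn : Fintype.card V = Fintype.card W)
    (hd : ∑ x, (G.degree x) ^ 2 = ∑ x, (H.degree x) ^ 2) : ∑ x, α x = ∑ x, α' x := by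
  have hnR : (Fintype.card V : ℝ) = Fintype.card W := by rw [hn]
  have hdR : ∑ x, (G.degree x : ℝ) ^ 2 = ∑ x, (H.degree x : ℝ) ^ 2 := by exact_mod_cast hd
  rw [mtsdd h, mtsdd h', mtsd h, mtsd h', hnR] at hdR
  have h1 : (∑ x, α x) ^ 2 = (∑ x, α' x) ^ 2 := by linarith
  exact (pow_left_inj₀ (Finset.sum_nonneg fun x _ => (h.pos x).le)
    (Finset.sum_nonneg fun x _ => (h'.pos x).le) two_ne_zero).mp h1

/-- equal numbers of vertices with a given Perron entry give equal valency arrays -/
lemma arrays_eq (h : Dat G T θ0 θ1 θ2 α) (h' : Dat H T' θ0 θ1 θ2 α')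
    (hc : ∀ z, (Finset.univ.filter (fun x => α x = z)).card =
      (Finset.univ.filter (fun x => α' x = z)).card) :
    Multiset.map (fun y => G.degree y) (Finset.univ : Finset V).val =
      Multiset.map (fun y => H.degree y) (Finset.univ : Finset W).val := by
  classical
  have key : ∀ {U : Type} [Fintype U] [DecidableEq U] (F : SimpleGraph U) [DecidableRel F.Adj]
      (S : ℝ) (β : U → ℝ), Dat F S θ0 θ1 θ2 β → ∀ d : ℕ,
      Multiset.count d (Multiset.map (fun y => F.degree y) (Finset.univ : Finset U).val) =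
        (Finset.univ.filter (fun x => β x = Real.sqrt (d + θ1 * θ2) ∧
          0 < (d : ℝ) + θ1 * θ2)).card := by
    intro U _ _ F _ S β hF d
    rw [Multiset.count_map]
    have : Multiset.filter (fun a => d = F.degree a) (Finset.univ : Finset U).val =
        (Finset.univ.filter (fun a => d = F.degree a)).val := rfl
    rw [this]
    change (Finset.univ.filter (fun a => d = F.degree a)).card = _
    congr 1
    ext x
    simp only [Finset.mem_filter, Finset.mem_univ, true_and]
    have h1 := hF.diag x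
    have h2 := hF.pos x
    constructor
    · intro hd
      have h3 : (d : ℝ) + θ1 * θ2 = β x ^ 2 := by rw [hd, h1]; ring
      refine ⟨?_, by rw [h3]; positivity⟩
      rw [h3, Real.sqrt_sq h2.le]
    · rintro ⟨h3, h4⟩
      have h5 : β x ^ 2 = d + θ1 * θ2 := by rw [h3, Real.sq_sqrt h4.le]
      have h6 : (F.degree x : ℝ) = d := by rw [h1, h5]; ring
      exact_mod_cast h6.symm
  ext d
  rw [key G T α h d, key H T' α' h' d]
  by_cases hd : 0 < (d : ℝ) + θ1 * θ2
  · simp only [hd, and_true]
    exact hc _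
  · simp [hd]

/-- at most five valencies in total -/
theorem array_of_five (h : Dat G T θ0 θ1 θ2 α) (h' : Dat H T' θ0 θ1 θ2 α')
    (hn : Fintype.card V = Fintype.card W) (hs : ∑ x, α x = ∑ x, α' x) (Z : Finset ℝ)
    (hZ : Z.card ≤ 5) (hf : ∀ x, α x ∈ Z) (hg : ∀ x, α' x ∈ Z) :
    Multiset.map (fun y => G.degree y) (Finset.univ : Finset V).val =
      Multiset.map (fun y => H.degree y) (Finset.univ : Finset W).val :=
  arrays_eq h h' (counts α α' Z hZ hf hg (mts_all h h' hn hs))

/-- one of the graphs has at most two valencies -/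
theorem array_of_two (h : Dat G T θ0 θ1 θ2 α) (h' : Dat H T' θ0 θ1 θ2 α')
    (hn : Fintype.card V = Fintype.card W) (hs : ∑ x, α x = ∑ x, α' x) (a b : ℝ)
    (hf : ∀ x, α x = a ∨ α x = b) :
    Multiset.map (fun y => G.degree y) (Finset.univ : Finset V).val =
      Multiset.map (fun y => H.degree y) (Finset.univ : Finset W).val := by
  classical
  have hm := mts_all h h' hn hs
  have e : ∀ {U : Type} [Fintype U] (β : U → ℝ), ∑ x, (β x - a) ^ 2 * (β x - b) ^ 2 =
      ∑ x, β x ^ 4 + (-2 * a - 2 * b) * ∑ x, β x ^ 3 +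
        (a ^ 2 + b ^ 2 + 4 * a * b) * ∑ x, β x ^ 2 +
        (-2 * a * b ^ 2 - 2 * a ^ 2 * b) * ∑ x, β x ^ 1 + a ^ 2 * b ^ 2 * ∑ x, β x ^ 0 := by
    intro U _ β
    simp only [Finset.mul_sum, ← Finset.sum_add_distrib]
    exact Finset.sum_congr rfl fun x _ => by ring
  have h0 : ∑ x, (α x - a) ^ 2 * (α x - b) ^ 2 = 0 := by
    refine Finset.sum_eq_zero fun x _ => ?_
    rcases hf x with h1 | h1 <;> rw [h1] <;> ring
  have h1 : ∑ x, (α' x - a) ^ 2 * (α' x - b) ^ 2 = 0 := by
    rw [← h0, e α, e α', hm 0 (by norm_num), hm 1 (by norm_num), hm 2 (by norm_num),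
      hm 3 (by norm_num), hm 4 (by norm_num)]
  have h2 : ∀ x, α' x = a ∨ α' x = b := by
    intro x
    have h3 := (Finset.sum_eq_zero_iff_of_nonneg (fun x _ => by positivity)).mp h1 x
      (Finset.mem_univ x)
    rcases mul_eq_zero.mp h3 with h4 | h4
    · left
      have := pow_eq_zero_iff (two_ne_zero) |>.mp h4
      linarith
    · right
      have := pow_eq_zero_iff (two_ne_zero) |>.mp h4
      linarith
  refine array_of_five h h' hn hs {a, b} ?_ ?_ ?_
  · have := Finset.card_le_two (a := a) (b := b)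
    omega
  · intro x
    rcases hf x with h3 | h3 <;> simp [h3]
  · intro x
    rcases h2 x with h3 | h3 <;> simp [h3]

/-- both graphs have a dominating vertex -/
theorem array_of_dom (h : Dat G T θ0 θ1 θ2 α) (h' : Dat H T' θ0 θ1 θ2 α')
    (hn : Fintype.card V = Fintype.card W) (x : V) (y : W)
    (hx : G.degree x = Fintype.card V - 1) (hy : H.degree y = Fintype.card W - 1) :
    Multiset.map (fun y => G.degree y) (Finset.univ : Finset V).val =
      Multiset.map (fun y => H.degree y) (Finset.univ : Finset W).val := by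
  classical
  have key : ∀ {U : Type} [Fintype U] [DecidableEq U] (F : SimpleGraph U) [DecidableRel F.Adj]
      (S : ℝ) (β : U → ℝ) (x : U), Dat F S θ0 θ1 θ2 β → F.degree x = Fintype.card U - 1 →
      ∑ z, β z = (θ0 + 1) * β x ∧
        (∀ z, z ≠ x → β z ^ 2 - β x * β z = (1 + θ1) * (1 + θ2)) := by
    intro U _ _ F _ S β x hF hx
    have hN0 : F.neighborFinset x = Finset.univ.erase x := by
      apply Finset.eq_of_subset_of_card_le
      · intro y hy
        rw [SimpleGraph.mem_neighborFinset] at hy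
        rw [Finset.mem_erase]
        exact ⟨hy.ne', Finset.mem_univ _⟩
      · rw [Finset.card_erase_of_mem (Finset.mem_univ _), Finset.card_univ,
          SimpleGraph.card_neighborFinset_eq_degree, hx]
    have hadj0 : ∀ y, y ≠ x → F.Adj x y := by
      intro y hy
      rw [← SimpleGraph.mem_neighborFinset, hN0, Finset.mem_erase]
      exact ⟨hy, Finset.mem_univ _⟩
    constructor
    · have h1 := hF.eig x
      have h2 : ∑ z, ad F x z * β z = ∑ z, β z - β x := by
        have : ∀ z, ad F x z * β z = β z - (if z = x then β z else 0) := by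
          intro z
          unfold ad
          by_cases hz : z = x
          · subst hz; simp
          · simp [hz, hadj0 z hz]
        rw [Finset.sum_congr rfl fun z _ => this z, Finset.sum_sub_distrib]
        simp
      rw [h2] at h1
      linarith
    · intro z hz
      have h1 := hF.adj x z (hadj0 z hz)
      have h2 : cd F x z = F.degree z - 1 := by
        unfold cd
        have : F.neighborFinset x ∩ F.neighborFinset z = (F.neighborFinset z).erase x := by
          rw [hN0]
          ext w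
          simp only [Finset.mem_inter, Finset.mem_erase, Finset.mem_univ, and_true]
        rw [this, Finset.card_erase_of_mem, SimpleGraph.card_neighborFinset_eq_degree]
        rw [SimpleGraph.mem_neighborFinset]
        exact (hadj0 z hz).symm
      have h3 : 1 ≤ F.degree z := by
        rw [← SimpleGraph.card_neighborFinset_eq_degree]
        apply Finset.card_pos.mpr
        exact ⟨x, by rw [SimpleGraph.mem_neighborFinset]; exact (hadj0 z hz).symm⟩
      rw [h2, Nat.cast_sub h3, hF.diag z] at h1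
      push_cast at h1
      linear_combination h1
  obtain ⟨s1, q1⟩ := key G T α x h hx
  obtain ⟨s2, q2⟩ := key H T' α' y h' hy
  -- equal Perron entries at the dominating vertices
  have hA : α x = α' y := by
    have e1 := h.diag x
    have e2 := h'.diag y
    rw [hx] at e1
    rw [hy, ← hn] at e2
    have e3 : α x ^ 2 = α' y ^ 2 := by linarith
    exact (pow_left_inj₀ (h.pos x).le (h'.pos y).le two_ne_zero).mp e3
  have hs : ∑ z, α z = ∑ z, α' z := by rw [s1, s2, hA]
  obtain ⟨r, hr⟩ : ∃ r : ℝ, (∀ z, z ≠ x → α z = r ∨ α z = α x - r) ∧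
      (∀ z, z ≠ y → α' z = r ∨ α' z = α x - r) := by
    have aux : ∀ r t : ℝ, r ^ 2 - α x * r = (1 + θ1) * (1 + θ2) →
        t ^ 2 - α x * t = (1 + θ1) * (1 + θ2) → t = r ∨ t = α x - r := by
      intro r t e1 e2
      have : (t - r) * (t - (α x - r)) = 0 := by linear_combination e2 - e1
      rcases mul_eq_zero.mp this with h1 | h1
      · left; linarith
      · right; linarith
    by_cases hz : ∃ z, z ≠ x
    · obtain ⟨z0, hz0⟩ := hz
      refine ⟨α z0, fun z hz => aux _ _ (q1 z0 hz0) (q1 z hz), fun z hz => ?_⟩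
      refine aux _ _ (q1 z0 hz0) ?_
      rw [hA]
      exact q2 z hz
    · push Not at hz
      have hc1 : Fintype.card V ≤ 1 := Fintype.card_le_one_iff.mpr fun u v => by
        rw [hz u, hz v]
      rw [hn] at hc1
      refine ⟨0, fun z hz' => absurd (hz z) hz', fun z hz' => ?_⟩
      exact absurd (Fintype.card_le_one_iff.mp hc1 z y) hz'
  refine array_of_five h h' hn hs {α x, r, α x - r} ?_ ?_ ?_
  · have := Finset.card_le_three (a := α x) (b := r) (c := α x - r)
    omega
  · intro z
    by_cases hz : z = x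
    · subst hz; simp
    · rcases hr.1 z hz with h1 | h1 <;> simp [h1]
  · intro z
    by_cases hz : z = y
    · subst hz; simp [hA]
    · rcases hr.2 z hz with h1 | h1 <;> simp [h1]

/-- cospectral with a regular graph -/
theorem regular_of (h : Dat G T θ0 θ1 θ2 α) (h' : Dat H T' θ0 θ1 θ2 α')
    (hn : Fintype.card V = Fintype.card W) (d : ℕ) (hd : G.IsRegularOfDegree d) :
    H.IsRegularOfDegree d := by
  classical
  have hnR : (Fintype.card V : ℝ) = Fintype.card W := by rw [hn]
  obtain ⟨v0⟩ := h.conn.nonempty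
  -- `θ0 = d`
  have hθ : θ0 = d := by
    have h1 := ad_adjoint (G := G) (fun _ => 1) α
    simp only [one_mul, mul_one] at h1
    have h2 : ∑ x, ∑ y, ad G x y * α y = θ0 * ∑ x, α x := by
      rw [Finset.mul_sum]
      exact Finset.sum_congr rfl fun x _ => h.eig x
    have h3 : ∑ x, (∑ y, ad G x y) * α x = d * ∑ x, α x := by
      rw [Finset.mul_sum]
      refine Finset.sum_congr rfl fun y _ => ?_
      rw [sum_ad, hd y]
    rw [h2, h3] at h1
    have h4 : 0 < ∑ x, α x := Finset.sum_pos (fun x _ => h.pos x) ⟨v0, Finset.mem_univ _⟩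
    exact mul_right_cancel₀ h4.ne' h1
  have hM2 : (θ0 - θ1) * (θ0 - θ2) = (Fintype.card V : ℝ) * (θ0 + θ1 * θ2) := by
    have h1 := mtsd h
    have h2 : ∑ x, (G.degree x : ℝ) = (Fintype.card V : ℝ) * d := by
      rw [Finset.sum_congr rfl (g := fun _ => (d : ℝ)) (fun x _ => by rw [hd x])]
      rw [Finset.sum_const, Finset.card_univ, nsmul_eq_mul]
    rw [h2, ← hθ] at h1
    linear_combination -h1
  -- Cauchy for `H`
  set n : ℝ := (Fintype.card V : ℝ) with hnn
  set c : ℝ := θ0 + θ1 * θ2 with hc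
  have hn0 : 0 < n := by
    rw [hnn]; exact_mod_cast Fintype.card_pos_iff.mpr ⟨v0⟩
  have hM2' := norm_sq h'
  have hM3' := mts3 h'
  rw [hM2] at hM2'
  have hS : 0 < ∑ x, α' x := by
    have : 0 < Fintype.card W := by rw [← hn]; exact Fintype.card_pos_iff.mpr ⟨v0⟩
    obtain ⟨w0⟩ := Fintype.card_pos_iff.mp this
    exact Finset.sum_pos (fun x _ => h'.pos x) ⟨w0, Finset.mem_univ _⟩
  have hc0 : 0 < c := by
    have : 0 < ∑ x, α' x ^ 2 := by
      have hw : 0 < Fintype.card W := by rw [← hn]; exact Fintype.card_pos_iff.mpr ⟨v0⟩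
      obtain ⟨w0⟩ := Fintype.card_pos_iff.mp hw
      exact Finset.sum_pos (fun x _ => pow_pos (h'.pos x) 2) ⟨w0, Finset.mem_univ _⟩
    rw [hM2'] at this
    exact (pos_iff_pos_of_mul_pos this).mp hn0
  -- `(M2)^2 ≤ M1 M3`
  have h5 : (n * c) ^ 2 ≤ (∑ x, α' x) * (c * ∑ x, α' x) := by
    have e := Finset.sum_mul_sq_le_sq_mul_sq Finset.univ (fun x => Real.sqrt (α' x))
      (fun x => Real.sqrt (α' x) * α' x)
    have e1 : ∑ x, Real.sqrt (α' x) * (Real.sqrt (α' x) * α' x) = ∑ x, α' x ^ 2 := by
      refine Finset.sum_congr rfl fun x _ => ?_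
      have := Real.mul_self_sqrt (h'.pos x).le
      linear_combination (α' x) * this
    have e2 : ∑ x, Real.sqrt (α' x) ^ 2 = ∑ x, α' x :=
      Finset.sum_congr rfl fun x _ => Real.sq_sqrt (h'.pos x).le
    have e3 : ∑ x, (Real.sqrt (α' x) * α' x) ^ 2 = ∑ x, α' x ^ 3 := by
      refine Finset.sum_congr rfl fun x _ => ?_
      rw [mul_pow, Real.sq_sqrt (h'.pos x).le]; ring
    rw [e1, e2, e3, hM2', hM3'] at e
    exact e
  have h6 : n ^ 2 * c ≤ (∑ x, α' x) ^ 2 := by
    have : c * (n ^ 2 * c) ≤ c * (∑ x, α' x) ^ 2 := by linarith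
    exact le_of_mul_le_mul_left this hc0
  obtain ⟨m, hm⟩ : ∃ m : ℝ, m * n = ∑ x, α' x := ⟨(∑ x, α' x) / n, by field_simp⟩
  have h7 : ∑ x, (α' x - m) ^ 2 = n * c - m * (m * n) := by
    have e : ∀ x, (α' x - m) ^ 2 = α' x ^ 2 - 2 * m * α' x + m ^ 2 := fun x => by ring
    rw [Finset.sum_congr rfl fun x _ => e x, Finset.sum_add_distrib, Finset.sum_sub_distrib,
      ← Finset.mul_sum, hM2', ← hm, Finset.sum_const, Finset.card_univ, nsmul_eq_mul, ← hnR]
    ring
  have h8 : ∑ x, (α' x - m) ^ 2 ≤ 0 := by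
    rw [h7]
    rw [← hm] at h6
    have : n * (n * c) ≤ n * (m * (m * n)) := by linarith
    have := le_of_mul_le_mul_left this hn0
    linarith
  have h9 : ∑ x, (α' x - m) ^ 2 = 0 :=
    le_antisymm h8 (Finset.sum_nonneg fun x _ => sq_nonneg _)
  have h10 : ∀ x, α' x = m := by
    intro x
    have h3 := (Finset.sum_eq_zero_iff_of_nonneg (fun x _ => sq_nonneg _)).mp h9 x
      (Finset.mem_univ x)
    have := pow_eq_zero_iff (two_ne_zero) |>.mp h3
    linarith
  intro x
  have e1 := h'.diag x
  have e2 : m * m = c := by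
    have e3 : ∑ x, α' x ^ 2 = n * (m * m) := by
      rw [Finset.sum_congr rfl (g := fun _ => m * m) (fun x _ => by rw [h10 x]; ring)]
      rw [Finset.sum_const, Finset.card_univ, nsmul_eq_mul, ← hnR]
    rw [hM2'] at e3
    exact (mul_left_cancel₀ hn0.ne' e3).symm
  have e3 : (H.degree x : ℝ) = d := by
    rw [e1, h10 x, ← hθ]
    have : m ^ 2 = c := by rw [← e2]; ring
    rw [this, hc]; ring
  exact_mod_cast e3
where
  pos_iff_pos_of_mul_pos {x y : ℝ} (hxy : 0 < x * y) : 0 < x ↔ 0 < y := by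
    constructor
    · intro hx
      by_contra hc
      push Not at hc
      have := mul_nonpos_of_nonneg_of_nonpos hx.le hc
      linarith
    · intro hy
      by_contra hc
      push Not at hc
      have := mul_nonpos_of_nonpos_of_nonneg hc hy.le
      linarith

end cmp

end GCN
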