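import Mathlib
import Pool.Agent.GCN.Mts

set_option autoImplicit false

/-! Preparation: cospectral graphs, complete bipartite graphs. -/

namespace GCN

open TE TS Matrix

lemma ev_iff {n : ℕ} (A : Matrix (Fin n) (Fin n) ℝ) (μ : ℝ) :
    (∃ v : Fin n → ℝ, v ≠ 0 ∧ A *ᵥ v = μ • v) ↔ A.charpoly.eval μ = 0 := by
  rw [Matrix.eval_charpoly, ← Matrix.exists_mulVec_eq_zero_iff]
  constructor
  · rintro ⟨v, hv, h⟩
    refine ⟨v, hv, ?_⟩
    rw [Matrix.sub_mulVec, h]
    ext i
    simp [Matrix.scalar_apply, Matrix.mulVec_diagonal]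
  · rintro ⟨v, hv, h⟩
    refine ⟨v, hv, ?_⟩
    rw [Matrix.sub_mulVec, sub_eq_zero] at h
    rw [← h]
    ext i
    simp [Matrix.scalar_apply, Matrix.mulVec_diagonal]

/-- the data of a graph with three eigenvalues, together with the set of eigenvalues -/
lemma dat_set {n : ℕ} (G : SimpleGraph (Fin n)) [DecidableRel G.Adj] (hc : G.Connected)
    (h3 : {μ : ℝ | ∃ v : Fin n → ℝ, v ≠ 0 ∧ (G.adjMatrix ℝ) *ᵥ v = μ • v}.ncard = 3) :
    ∃ (T θ0 θ1 θ2 : ℝ) (α : Fin n → ℝ), Dat G T θ0 θ1 θ2 α ∧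
      {μ : ℝ | ∃ v : Fin n → ℝ, v ≠ 0 ∧ (G.adjMatrix ℝ) *ᵥ v = μ • v} = {θ0, θ1, θ2} := by
  set S : Set ℝ := {μ : ℝ | ∃ v : Fin n → ℝ, v ≠ 0 ∧ (G.adjMatrix ℝ) *ᵥ v = μ • v}
    with hSdef
  obtain ⟨a, b, c, hba, hcb, hSabc⟩ := exists_three S h3
  obtain ⟨θ0, θ1, θ2, α, h⟩ := exists_dat G (max 1 (-c)) (le_max_left _ _) hc h3 (by
    intro μ v hv hμ
    have h1 : μ ∈ S := ⟨v, hv, hμ⟩
    rw [hSabc] at h1
    have h2 : -c ≤ max 1 (-c) := le_max_right _ _
    rcases h1 with h1 | h1 | h1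
    · linarith
    · linarith
    · have : μ = c := h1
      linarith)
  refine ⟨_, θ0, θ1, θ2, α, h, ?_⟩
  have hsub : S ⊆ {θ0, θ1, θ2} := by
    rintro μ ⟨v, hv, hμ⟩
    have := h.ev μ v hv (by
      intro x
      have h1 := congrFun hμ x
      rw [mulVec_ad] at h1
      rw [h1]; rfl)
    simpa using this
  apply Set.eq_of_subset_of_ncard_le hsub
  rw [h3]
  have e1 := Set.ncard_insert_le θ0 ({θ1, θ2} : Set ℝ)
  have e2 := Set.ncard_insert_le θ1 ({θ2} : Set ℝ)
  rw [Set.ncard_singleton] at e2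
  omega

/-- sorted triples with the same elements are equal -/
lemma triple_eq {a b c a' b' c' : ℝ} (h1 : b < a) (h2 : c < b) (h1' : b' < a') (h2' : c' < b')
    (h : ({a, b, c} : Set ℝ) = {a', b', c'}) : a = a' ∧ b = b' ∧ c = c' := by
  have ma : a ∈ ({a', b', c'} : Set ℝ) := by rw [← h]; simp
  have mb : b ∈ ({a', b', c'} : Set ℝ) := by rw [← h]; simp
  have mc : c ∈ ({a', b', c'} : Set ℝ) := by rw [← h]; simp
  have ma' : a' ∈ ({a, b, c} : Set ℝ) := by rw [h]; simp
  have mb' : b' ∈ ({a, b, c} : Set ℝ) := by rw [h]; simp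
  have mc' : c' ∈ ({a, b, c} : Set ℝ) := by rw [h]; simp
  simp only [Set.mem_insert_iff, Set.mem_singleton_iff] at ma mb mc ma' mb' mc'
  have ea : a = a' := by
    apply le_antisymm
    · rcases ma with h | h | h <;> linarith
    · rcases ma' with h | h | h <;> linarith
  have ec : c = c' := by
    apply le_antisymm
    · rcases mc' with h | h | h <;> linarith
    · rcases mc with h | h | h <;> linarith
  refine ⟨ea, ?_, ec⟩
  rcases mb with h | h | h
  · linarith
  · exact h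
  · linarith

/-- complete bipartite graphs with the same numbers of vertices and edges -/
lemma bip_eq {n : ℕ} (G H : SimpleGraph (Fin n)) [DecidableRel G.Adj] [DecidableRel H.Adj]
    (s t : Set (Fin n)) (hs : ∀ u v, G.Adj u v ↔ ¬ (u ∈ s ↔ v ∈ s))
    (ht : ∀ u v, H.Adj u v ↔ ¬ (u ∈ t ↔ v ∈ t))
    (hd : ∑ x, G.degree x = ∑ x, H.degree x) :
    Multiset.map (fun y => G.degree y) (Finset.univ : Finset (Fin n)).val =
      Multiset.map (fun y => H.degree y) (Finset.univ : Finset (Fin n)).val := by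
  classical
  have key : ∀ (F : SimpleGraph (Fin n)) [DecidableRel F.Adj] (r : Set (Fin n)),
      (∀ u v, F.Adj u v ↔ ¬ (u ∈ r ↔ v ∈ r)) → ∃ a b : ℕ, a + b = n ∧
      Multiset.map (fun y => F.degree y) (Finset.univ : Finset (Fin n)).val =
        Multiset.replicate a b + Multiset.replicate b a := by
    intro F _ r hr
    set R := Finset.univ.filter (fun x => x ∈ r) with hR
    set Q := Finset.univ.filter (fun x => ¬ x ∈ r) with hQ
    have hRQ : R.card + Q.card = n := by
      have := Finset.card_filter_add_card_filter_not (s := (Finset.univ : Finset (Fin n)))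
        (fun x => x ∈ r)
      rw [Finset.card_univ, Fintype.card_fin] at this
      exact this
    have hd1 : ∀ x ∈ R, F.degree x = Q.card := by
      intro x hx
      rw [← SimpleGraph.card_neighborFinset_eq_degree]
      congr 1
      ext y
      rw [SimpleGraph.mem_neighborFinset, hr x y]
      have hx' : x ∈ r := (Finset.mem_filter.mp hx).2
      simp [hQ, hx']
    have hd2 : ∀ x ∈ Q, F.degree x = R.card := by
      intro x hx
      rw [← SimpleGraph.card_neighborFinset_eq_degree]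
      congr 1
      ext y
      rw [SimpleGraph.mem_neighborFinset, hr x y]
      have hx' : ¬ x ∈ r := (Finset.mem_filter.mp hx).2
      simp [hR, hx']
    refine ⟨R.card, Q.card, hRQ, ?_⟩
    have e0 : (Finset.univ : Finset (Fin n)).val = R.val + Q.val := by
      have : (Finset.univ : Finset (Fin n)).val =
          Multiset.filter (fun x => x ∈ r) (Finset.univ : Finset (Fin n)).val +
            Multiset.filter (fun x => ¬ x ∈ r) (Finset.univ : Finset (Fin n)).val :=
        (Multiset.filter_add_not _ _).symm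
      exact this
    rw [e0, Multiset.map_add]
    congr 1
    · rw [Multiset.eq_replicate]
      refine ⟨by rw [Multiset.card_map]; rfl, ?_⟩
      intro b hb
      obtain ⟨y, hy, rfl⟩ := Multiset.mem_map.mp hb
      exact hd1 y hy
    · rw [Multiset.eq_replicate]
      refine ⟨by rw [Multiset.card_map]; rfl, ?_⟩
      intro b hb
      obtain ⟨y, hy, rfl⟩ := Multiset.mem_map.mp hb
      exact hd2 y hy
  obtain ⟨a, b, hab, e1⟩ := key G s hs
  obtain ⟨c, d, hcd, e2⟩ := key H t ht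
  have f1 : ∑ x, G.degree x = 2 * (a * b) := by
    have : ∑ x, G.degree x =
        (Multiset.map (fun y => G.degree y) (Finset.univ : Finset (Fin n)).val).sum := rfl
    rw [this, e1, Multiset.sum_add, Multiset.sum_replicate, Multiset.sum_replicate]
    simp only [smul_eq_mul]; ring
  have f2 : ∑ x, H.degree x = 2 * (c * d) := by
    have : ∑ x, H.degree x =
        (Multiset.map (fun y => H.degree y) (Finset.univ : Finset (Fin n)).val).sum := rfl
    rw [this, e2, Multiset.sum_add, Multiset.sum_replicate, Multiset.sum_replicate]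
    simp only [smul_eq_mul]; ring
  have f3 : a * b = c * d := by omega
  have f4 : (a : ℤ) + b = c + d := by omega
  have f5 : (a : ℤ) * b = c * d := by exact_mod_cast f3
  have f6 : ((a : ℤ) - c) * (a - d) = 0 := by
    have : (b : ℤ) = c + d - a := by linarith
    rw [this] at f5
    linear_combination -f5
  rw [e1, e2]
  rcases mul_eq_zero.mp f6 with g | g
  · have ha : a = c := by omega
    have hb : b = d := by omega
    rw [ha, hb]
  · have ha : a = d := by omega
    have hb : b = c := by omega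
    rw [ha, hb, add_comm]

/-- two cospectral graphs with three eigenvalues have data with the same eigenvalues -/
theorem prep (n : ℕ) (G H : SimpleGraph (Fin n)) [DecidableRel G.Adj]
    [DecidableRel H.Adj] (hG : G.Connected) (hH : H.Connected)
    (h3 : {μ : ℝ | ∃ v : Fin n → ℝ, v ≠ 0 ∧ (G.adjMatrix ℝ) *ᵥ v = μ • v}.ncard = 3)
    (hsp : (G.adjMatrix ℝ).charpoly = (H.adjMatrix ℝ).charpoly) :
    {μ : ℝ | ∃ v : Fin n → ℝ, v ≠ 0 ∧ (G.adjMatrix ℝ) *ᵥ v = μ • v} =
      {μ : ℝ | ∃ v : Fin n → ℝ, v ≠ 0 ∧ (H.adjMatrix ℝ) *ᵥ v = μ • v} ∧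
    ∃ (T T' θ0 θ1 θ2 : ℝ) (α α' : Fin n → ℝ), Dat G T θ0 θ1 θ2 α ∧
      Dat H T' θ0 θ1 θ2 α' := by
  have hset : {μ : ℝ | ∃ v : Fin n → ℝ, v ≠ 0 ∧ (G.adjMatrix ℝ) *ᵥ v = μ • v} =
      {μ : ℝ | ∃ v : Fin n → ℝ, v ≠ 0 ∧ (H.adjMatrix ℝ) *ᵥ v = μ • v} := by
    ext μ
    simp only [Set.mem_setOf_eq]
    rw [ev_iff, ev_iff, hsp]
  have h3' := h3
  rw [hset] at h3'
  obtain ⟨T, θ0, θ1, θ2, α, hD, hS⟩ := dat_set G hG h3
  obtain ⟨T', θ0', θ1', θ2', α', hD', hS'⟩ := dat_set H hH h3'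
  obtain ⟨q0, q1, q2⟩ := triple_eq hD.h01 hD.h12 hD'.h01 hD'.h12
    (by rw [← hS, ← hS', hset])
  refine ⟨hset, T, T', θ0, θ1, θ2, α, α', hD, ?_⟩
  rw [q0, q1, q2]
  exact hD'

/-- cospectral graphs with three eigenvalues have the same number of edges -/
lemma sum_deg_eq {n : ℕ} {G H : SimpleGraph (Fin n)} [DecidableRel G.Adj]
    [DecidableRel H.Adj] {T T' θ0 θ1 θ2 : ℝ} {α α' : Fin n → ℝ} (hD : Dat G T θ0 θ1 θ2 α)
    (hD' : Dat H T' θ0 θ1 θ2 α') : ∑ x, G.degree x = ∑ x, H.degree x := by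
  have e1 := mtsd hD
  have e2 := mtsd hD'
  have : (∑ x, (G.degree x : ℝ)) = ∑ x, (H.degree x : ℝ) := by rw [e1, e2]
  exact_mod_cast this

/-- the regular case -/
lemma arr_reg {n : ℕ} {G H : SimpleGraph (Fin n)} [DecidableRel G.Adj]
    [DecidableRel H.Adj] {T T' θ0 θ1 θ2 : ℝ} {α α' : Fin n → ℝ} (hD : Dat G T θ0 θ1 θ2 α)
    (hD' : Dat H T' θ0 θ1 θ2 α')
    (h : (∃ d, G.IsRegularOfDegree d) ∨ (∃ d, H.IsRegularOfDegree d)) :
    Multiset.map (fun y => G.degree y) (Finset.univ : Finset (Fin n)).val =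
      Multiset.map (fun y => H.degree y) (Finset.univ : Finset (Fin n)).val := by
  rcases h with ⟨d, hd⟩ | ⟨d, hd⟩
  · have hd' := regular_of hD hD' rfl d hd
    exact Multiset.map_congr rfl fun x _ => by rw [hd x, hd' x]
  · have hd' := regular_of hD' hD rfl d hd
    exact Multiset.map_congr rfl fun x _ => by rw [hd x, hd' x]

end GCN
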