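import Mathlib
import Pool.Agent.TS.Zero
import Pool.Agent.GCN.Mts

set_option autoImplicit false
set_option linter.unusedSectionVars false

/-! Smallest eigenvalue `-2`: integrality and moments determine the valency array. -/

namespace GCN

open Finset TE TS

/-- sums over fibres for a function with values in `{1, ..., 6}` -/
lemma sum_six {V : Type} [Fintype V] (a : V → ℕ) (h1 : ∀ x, 1 ≤ a x) (h6 : ∀ x, a x ≤ 6)
    (F : ℕ → ℕ) : ∑ x, F (a x) =
      (Finset.univ.filter (fun x => a x = 1)).card * F 1 +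
      (Finset.univ.filter (fun x => a x = 2)).card * F 2 +
      (Finset.univ.filter (fun x => a x = 3)).card * F 3 +
      (Finset.univ.filter (fun x => a x = 4)).card * F 4 +
      (Finset.univ.filter (fun x => a x = 5)).card * F 5 +
      (Finset.univ.filter (fun x => a x = 6)).card * F 6 := by
  classical
  have h := Finset.sum_fiberwise_of_maps_to (s := (Finset.univ : Finset V))
    (t := Finset.range 7) (g := a) (fun x _ => Finset.mem_range.mpr (by have := h6 x; omega))
    (fun x => F (a x))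
  rw [← h]
  have e : ∀ j, ∑ x ∈ Finset.univ.filter (fun x => a x = j), F (a x) =
      (Finset.univ.filter (fun x => a x = j)).card * F j := by
    intro j
    rw [Finset.sum_congr rfl (g := fun _ => F j)
      (fun x hx => by rw [(Finset.mem_filter.mp hx).2])]
    rw [Finset.sum_const, smul_eq_mul]
  have e0 : (Finset.univ.filter (fun x => a x = 0)).card = 0 := by
    rw [Finset.card_eq_zero, Finset.filter_eq_empty_iff]
    intro x _ hx
    have := h1 x
    omega
  simp only [Finset.sum_range_succ, Finset.sum_range_zero, e, e0]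
  ring

lemma a11b (N1 N2 N3 N4 N5 N6 : ℕ) (E0 : N1 + N2 + N3 + N4 + N5 + N6 = 65)
    (E3 : N1 + 8 * N2 + 27 * N3 + 64 * N4 + 125 * N5 + 216 * N6 =
      12 * (N1 + 2 * N2 + 3 * N3 + 4 * N4 + 5 * N5 + 6 * N6)) :
    160 * N6 + 81 * N5 + 32 * N4 ≤ 1040 := by
  have h1 : 144 * N6 + 65 * N5 + 16 * N4 = 11 * N1 + 16 * N2 + 9 * N3 := by linarith
  have h2 : 11 * N1 + 16 * N2 + 9 * N3 ≤ 16 * (N1 + N2 + N3) := by linarith
  linarith

lemma a11 (N1 N2 N3 N4 N5 N6 : ℕ) (E0 : N1 + N2 + N3 + N4 + N5 + N6 = 65)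
    (E2 : N1 + 4 * N2 + 9 * N3 + 16 * N4 + 25 * N5 + 36 * N6 = 748)
    (E3 : N1 + 8 * N2 + 27 * N3 + 64 * N4 + 125 * N5 + 216 * N6 =
      12 * (N1 + 2 * N2 + 3 * N3 + 4 * N4 + 5 * N5 + 6 * N6)) : False := by
  have hb := a11b N1 N2 N3 N4 N5 N6 E0 E3
  have h6 : N6 ≤ 6 := by omega
  have h5 : N5 ≤ 12 := by omega
  have h4 : N4 ≤ 32 := by omega
  have k2 : 23 * N2 + 2177 = 93 * N4 + 280 * N5 + 585 * N6 := by omega
  have k3 : N1 + N2 + N3 = 65 - N4 - N5 - N6 := by omega
  clear E0
  interval_cases N6 <;> interval_cases N5 <;> omega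

lemma a112 (N1 N2 N3 N4 : ℕ) (E0 : N1 + N2 + N3 + N4 = 65)
    (E2 : N1 + 4 * N2 + 9 * N3 + 16 * N4 = 374)
    (E3 : N1 + 8 * N2 + 27 * N3 + 64 * N4 = 6 * (N1 + 2 * N2 + 3 * N3 + 4 * N4)) : False := by
  have hb : 45 * N4 + 14 * N3 ≤ 325 := by linarith
  have h4 : N4 ≤ 7 := by omega
  clear hb
  interval_cases N4 <;> omega

lemma a114 (N1 N2 N3 : ℕ) (E0 : N1 + N2 + N3 = 65)
    (E3 : N1 + 8 * N2 + 27 * N3 = 3 * (N1 + 2 * N2 + 3 * N3)) : False := by
  omega

lemma a5 (N1 N2 N3 N4 : ℕ) (E0 : N1 + N2 + N3 + N4 = 29)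
    (E2 : N1 + 4 * N2 + 9 * N3 + 16 * N4 = 160)
    (E3 : N1 + 8 * N2 + 27 * N3 + 64 * N4 = 6 * (N1 + 2 * N2 + 3 * N3 + 4 * N4)) : False := by
  have hb : 45 * N4 + 14 * N3 ≤ 145 := by linarith
  have h4 : N4 ≤ 3 := by omega
  clear hb
  interval_cases N4 <;> omega

/-- the arithmetic: only the array of the cone is possible -/
lemma arith (K g N1 N2 N3 N4 N5 N6 : ℕ) (hK : K = 2 ∨ K = 3 ∨ K = 5 ∨ K = 11) (hg : 1 ≤ g)
    (hgK : g ≤ 4 * K)
    (z3 : 4 * K < g * 9 → N3 = 0) (z4 : 4 * K < g * 16 → N4 = 0)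
    (z5 : 4 * K < g * 25 → N5 = 0) (z6 : 4 * K < g * 36 → N6 = 0)
    (E0 : N1 + N2 + N3 + N4 + N5 + N6 = 6 * K - 1)
    (E2 : g * (N1 + 4 * N2 + 9 * N3 + 16 * N4 + 25 * N5 + 36 * N6) = 2 * K * (3 * K + 1))
    (E3 : g * (N1 + 8 * N2 + 27 * N3 + 64 * N4 + 125 * N5 + 216 * N6) =
      (K + 1) * (N1 + 2 * N2 + 3 * N3 + 4 * N4 + 5 * N5 + 6 * N6)) :
    g = K ∧ N2 = 1 ∧ N3 = 0 ∧ N4 = 0 ∧ N5 = 0 ∧ N6 = 0 := by
  rcases hK with rfl | rfl | rfl | rfl
  · -- K = 2
    have q3 : N3 = 0 := z3 (by omega)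
    have q4 : N4 = 0 := z4 (by omega)
    have q5 : N5 = 0 := z5 (by omega)
    have q6 : N6 = 0 := z6 (by omega)
    clear z3 z4 z5 z6
    subst q3 q4 q5 q6
    norm_num at E0 E2 E3 hgK
    clear E3
    interval_cases g <;> omega
  · -- K = 3
    have q4 : N4 = 0 := z4 (by omega)
    have q5 : N5 = 0 := z5 (by omega)
    have q6 : N6 = 0 := z6 (by omega)
    clear z4 z5 z6
    subst q4 q5 q6
    norm_num at E0 E2 E3 hgK
    rcases Nat.lt_or_ge g 2 with h1 | h1
    · have : g = 1 := by omega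
      subst this
      clear z3
      omega
    · have q3 : N3 = 0 := z3 (by omega)
      clear z3 E3
      subst q3
      interval_cases g <;> omega
  · -- K = 5
    have q5 : N5 = 0 := z5 (by omega)
    have q6 : N6 = 0 := z6 (by omega)
    clear z5 z6
    subst q5 q6
    norm_num at E0 E2 E3 hgK
    rcases Nat.lt_or_ge g 2 with h1 | h1
    · have : g = 1 := by omega
      subst this
      exact (a5 N1 N2 N3 N4 E0 (by omega) (by omega)).elim
    · have q4 : N4 = 0 := z4 (by omega)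
      clear z4
      subst q4
      rcases Nat.lt_or_ge g 3 with h2 | h2
      · have : g = 2 := by omega
        subst this
        clear z3
        omega
      · have q3 : N3 = 0 := z3 (by omega)
        clear z3 E3
        subst q3
        interval_cases g <;> omega
  · -- K = 11
    norm_num at E0 E2 E3 hgK
    rcases Nat.lt_or_ge g 2 with h1 | h1
    · have : g = 1 := by omega
      subst this
      exact (a11 N1 N2 N3 N4 N5 N6 E0 (by omega) (by omega)).elim
    · have q5 : N5 = 0 := z5 (by omega)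
      have q6 : N6 = 0 := z6 (by omega)
      clear z5 z6
      subst q5 q6
      rcases Nat.lt_or_ge g 3 with h2 | h2
      · have : g = 2 := by omega
        subst this
        exact (a112 N1 N2 N3 N4 (by omega) (by omega) (by omega)).elim
      · have q4 : N4 = 0 := z4 (by omega)
        clear z4
        subst q4
        rcases Nat.lt_or_ge g 5 with h3 | h3
        · interval_cases g
          · clear E3 z3
            omega
          · exact (a114 N1 N2 N3 (by omega) (by omega)).elim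
        · have q3 : N3 = 0 := z3 (by omega)
          clear z3 E3
          subst q3
          interval_cases g <;> omega

end GCN
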