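import Mathlib
import Pool.Agent.GCN.Two

set_option autoImplicit false
set_option linter.unusedSectionVars false

/-! Smallest eigenvalue `-2`: the graph theoretic part. -/

namespace GCN

open Finset TE TS

variable {V : Type} [Fintype V] [DecidableEq V]
variable {G : SimpleGraph V} [DecidableRel G.Adj] {T : ℝ} {α : V → ℝ}

theorem two (K : ℕ) (hK : 2 ≤ K) (h : Dat G T (3 * (K : ℝ) - 1) ((K : ℝ) - 1) (-2) α)
    (hn : (Fintype.card V : ℝ) = 2 * (3 * (K : ℝ) - 1) + 1) :
    ∃ x, G.degree x = Fintype.card V - 1 ∧ ∀ y, y ≠ x → G.degree y = 3 * K - 2 := by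
  classical
  have hcard : Fintype.card V = 6 * K - 1 := by
    have : (Fintype.card V : ℝ) + 1 = 6 * K := by rw [hn]; ring
    have : Fintype.card V + 1 = 6 * K := by exact_mod_cast this
    omega
  have hKR : (2 : ℝ) ≤ K := by exact_mod_cast hK
  -- the possible values of `K`
  have hK4 : K = 2 ∨ K = 3 ∨ K = 5 ∨ K = 11 := by
    obtain ⟨m, hm⟩ := trace_nat h
    rw [hn] at hm
    have hm' : ((K : ℤ) + 1) * (m - 6 * K + 11) = 12 := by
      have : ((K : ℝ) + 1) * (m - 6 * K + 11) = 12 := by linear_combination -hm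
      exact_mod_cast this
    have hd : (K + 1) ∣ 12 := by
      have : ((K : ℤ) + 1) ∣ 12 := ⟨_, hm'.symm⟩
      exact_mod_cast this
    have hle := Nat.le_of_dvd (by norm_num) hd
    have hK' : K ≤ 11 := by omega
    interval_cases K <;> simp_all <;> omega
  -- squares of Perron entries
  have hf : ∀ x, ∃ f : ℕ, (f : ℝ) = α x ^ 2 ∧ G.degree x = f + 2 * (K - 1) := by
    intro x
    have h1 := h.diag x
    have h2 := h.pos x
    have h3 : (G.degree x : ℝ) = α x ^ 2 + ((2 * (K - 1) : ℕ) : ℝ) := by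
      rw [h1, Nat.cast_mul, Nat.cast_sub (by omega)]
      push_cast
      ring
    have h4 : 2 * (K - 1) ≤ G.degree x := by
      have : ((2 * (K - 1) : ℕ) : ℝ) ≤ G.degree x := by
        rw [h3]; linarith [sq_nonneg (α x)]
      exact_mod_cast this
    refine ⟨G.degree x - 2 * (K - 1), ?_, by omega⟩
    rw [Nat.cast_sub h4, h3]; ring
  choose f hf1 hf2 using hf
  obtain ⟨v⟩ := h.conn.nonempty
  have hz : ∀ x, ∃ z : ℕ, (z : ℝ) = α x * α v := by
    intro x
    have hp : 0 < α x * α v := mul_pos (h.pos x) (h.pos v)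
    have : ∃ z : ℤ, (z : ℝ) = α x * α v := by
      by_cases hxv : x = v
      · subst hxv
        exact ⟨f x, by push_cast; rw [hf1 x]; ring⟩
      · by_cases ha : G.Adj x v
        · refine ⟨(cd G x v : ℤ) - (K - 3), ?_⟩
          have := h.adj x v ha
          push_cast
          rw [this]; ring
        · refine ⟨(cd G x v : ℤ), ?_⟩
          have := h.nadj x v hxv ha
          push_cast
          rw [this]
    obtain ⟨z, hz⟩ := this
    have hz0 : 0 < z := by
      have : (0 : ℝ) < z := by rw [hz]; exact hp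
      exact_mod_cast this
    refine ⟨z.toNat, ?_⟩
    rw [← hz]
    have : ((z.toNat : ℤ) : ℝ) = (z : ℝ) := by rw [Int.toNat_of_nonneg hz0.le]
    exact_mod_cast this
  choose z hz using hz
  have hzz : ∀ x, z x ^ 2 = f x * f v := by
    intro x
    have : (z x : ℝ) ^ 2 = f x * f v := by rw [hz x, hf1 x, hf1 v]; ring
    exact_mod_cast this
  have hf0 : ∀ x, 1 ≤ f x := by
    intro x
    have : (0 : ℝ) < f x := by rw [hf1 x]; exact pow_pos (h.pos x) 2
    have : 0 < f x := by exact_mod_cast this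
    omega
  obtain ⟨g, b, hgb, hgs⟩ := Nat.sq_mul_squarefree (f v)
  have hg1 : 1 ≤ g := by
    by_contra hcon
    have : g = 0 := by omega
    rw [this] at hgb
    have := hf0 v
    omega
  have hb1 : 0 < b := by
    by_contra hcon
    have : b = 0 := by omega
    rw [this] at hgb
    have := hf0 v
    omega
  have ha : ∀ x, ∃ a : ℕ, f x = g * a ^ 2 := by
    intro x
    have e1 := hzz x
    rw [← hgb] at e1
    have e2 : b ^ 2 ∣ z x ^ 2 := ⟨f x * g, by rw [e1]; ring⟩
    have e3 : b ∣ z x := (Nat.pow_dvd_pow_iff two_ne_zero).mp e2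
    obtain ⟨w, hw⟩ := e3
    rw [hw] at e1
    have e4 : w ^ 2 = f x * g := by
      have : b ^ 2 * w ^ 2 = b ^ 2 * (f x * g) := by rw [← mul_pow, e1]; ring
      exact Nat.eq_of_mul_eq_mul_left (pow_pos hb1 2) this
    have e5 : g ∣ w := (hgs.dvd_pow_iff_dvd two_ne_zero).mp ⟨f x, by rw [e4]; ring⟩
    obtain ⟨a, ha⟩ := e5
    refine ⟨a, ?_⟩
    rw [ha] at e4
    have : g * (g * a ^ 2) = g * f x := by
      calc _ = (g * a) ^ 2 := by ring
        _ = f x * g := e4
        _ = _ := by ring
    exact (Nat.eq_of_mul_eq_mul_left hg1 this).symm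
  choose a ha using ha
  have hf4 : ∀ x, f x ≤ 4 * K := by
    intro x
    have e1 := G.degree_lt_card_verts x
    rw [hf2 x, hcard] at e1
    omega
  have hK11 : K ≤ 11 := by omega
  have ha1 : ∀ x, 1 ≤ a x := by
    intro x
    by_contra hcon
    have : a x = 0 := by omega
    have e1 := ha x
    rw [this] at e1
    have := hf0 x
    omega
  have ha6 : ∀ x, a x ≤ 6 := by
    intro x
    by_contra hcon
    push Not at hcon
    have e1 := ha x
    have e2 := hf4 x
    have e3 : 7 ^ 2 ≤ a x ^ 2 := Nat.pow_le_pow_left hcon 2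
    have e4 : 1 * 7 ^ 2 ≤ g * a x ^ 2 := Nat.mul_le_mul hg1 e3
    omega
  -- the three equations
  have E0 := sum_six a ha1 ha6 (fun _ => 1)
  have E2 := sum_six a ha1 ha6 (fun j => j ^ 2)
  have E1 := sum_six a ha1 ha6 (fun j => j)
  have E3 := sum_six a ha1 ha6 (fun j => j ^ 3)
  set N1 := (Finset.univ.filter (fun x => a x = 1)).card
  set N2 := (Finset.univ.filter (fun x => a x = 2)).card with hN2
  set N3 := (Finset.univ.filter (fun x => a x = 3)).card with hN3
  set N4 := (Finset.univ.filter (fun x => a x = 4)).card with hN4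
  set N5 := (Finset.univ.filter (fun x => a x = 5)).card with hN5
  set N6 := (Finset.univ.filter (fun x => a x = 6)).card with hN6
  simp only [Finset.sum_const, Finset.card_univ, smul_eq_mul, mul_one] at E0
  rw [hcard] at E0
  have M2 : g * ∑ x, a x ^ 2 = 2 * K * (3 * K + 1) := by
    have e1 := norm_sq h
    have e2 : ∑ x, α x ^ 2 = ((g * ∑ x, a x ^ 2 : ℕ) : ℝ) := by
      rw [Finset.mul_sum]
      push_cast
      refine Finset.sum_congr rfl fun x _ => ?_
      rw [← hf1 x, ha x]
      push_cast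
      ring
    rw [e2] at e1
    have e3 : ((g * ∑ x, a x ^ 2 : ℕ) : ℝ) = ((2 * K * (3 * K + 1) : ℕ) : ℝ) := by
      rw [e1]; push_cast; ring
    exact_mod_cast e3
  have hα : ∀ x, α x = Real.sqrt g * a x := by
    intro x
    have e1 : α x ^ 2 = (Real.sqrt g * a x) ^ 2 := by
      rw [mul_pow, Real.sq_sqrt (Nat.cast_nonneg _), ← hf1 x, ha x]
      push_cast
      ring
    exact (pow_left_inj₀ (h.pos x).le (by positivity) two_ne_zero).mp e1
  have M3 : g * ∑ x, a x ^ 3 = (K + 1) * ∑ x, a x := by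
    have e1 := mts3 h
    have hq : 0 < Real.sqrt g := Real.sqrt_pos.mpr (by exact_mod_cast hg1)
    have e2 : ∑ x, α x ^ 3 = Real.sqrt g * (g * ∑ x, (a x : ℝ) ^ 3) := by
      rw [Finset.mul_sum, Finset.mul_sum]
      refine Finset.sum_congr rfl fun x _ => ?_
      rw [hα x]
      have := Real.sq_sqrt (show (0 : ℝ) ≤ g from Nat.cast_nonneg _)
      linear_combination (Real.sqrt g * (a x : ℝ) ^ 3) * this
    have e3 : ∑ x, α x = Real.sqrt g * ∑ x, (a x : ℝ) := by
      rw [Finset.mul_sum]
      exact Finset.sum_congr rfl fun x _ => hα x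
    rw [e2, e3] at e1
    have e4 : Real.sqrt g * ((g : ℝ) * ∑ x, (a x : ℝ) ^ 3) =
        Real.sqrt g * (((K : ℝ) + 1) * ∑ x, (a x : ℝ)) := by
      rw [e1]; ring
    have e5 := mul_left_cancel₀ hq.ne' e4
    exact_mod_cast e5
  have hzero : ∀ j, 4 * K < g * j ^ 2 → (Finset.univ.filter (fun x => a x = j)).card = 0 := by
    intro j hj
    rw [Finset.card_eq_zero, Finset.filter_eq_empty_iff]
    intro x _ hx
    have e1 := ha x
    rw [hx] at e1
    have := hf4 x
    omega
  have hgK : g ≤ 4 * K := by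
    have e1 := ha v
    have e2 := hf4 v
    have e3 : g * 1 ≤ g * a v ^ 2 := Nat.mul_le_mul_left g (Nat.one_le_pow _ _ (ha1 v))
    omega
  obtain ⟨r1, r2, r3, r4, r5, r6⟩ := arith K g N1 N2 N3 N4 N5 N6 hK4 hg1 hgK
    (fun hh => hzero 3 (by simpa using hh))
    (fun hh => hzero 4 (by simpa using hh)) (fun hh => hzero 5 (by simpa using hh))
    (fun hh => hzero 6 (by simpa using hh)) E0.symm
    (by rw [← M2, E2]; ring) (by rw [E3, E1] at M3; linarith)
  obtain ⟨x, hx⟩ := Finset.card_eq_one.mp r2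
  have hxa : a x = 2 := by
    have : x ∈ Finset.univ.filter (fun x => a x = 2) := by rw [hx]; simp
    exact (Finset.mem_filter.mp this).2
  refine ⟨x, ?_, ?_⟩
  · rw [hf2 x, ha x, hxa, r1, hcard]
    omega
  · intro y hy
    have hy2 : a y ≠ 2 := by
      intro hcon
      have : y ∈ Finset.univ.filter (fun x => a x = 2) := by simp [hcon]
      rw [hx, Finset.mem_singleton] at this
      exact hy this
    have hnj : ∀ j, (Finset.univ.filter (fun x => a x = j)).card = 0 → a y ≠ j := by
      intro j hj hcon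
      rw [Finset.card_eq_zero, Finset.filter_eq_empty_iff] at hj
      exact hj (Finset.mem_univ y) hcon
    have h3 := hnj 3 r3
    have h4 := hnj 4 r4
    have h5 := hnj 5 r5
    have h6 := hnj 6 r6
    have h7 := ha1 y
    have h8 := ha6 y
    have hy1 : a y = 1 := by omega
    rw [hf2 y, ha y, hy1, r1]
    omega

end GCN
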